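import Mathlib

-- merged part: Pool.Agent.Work.MP_c2f093_al.PA.Defs
section
/-!
Property (A) for free groups: definitions and basic lemmas.
-/

namespace Pool.Agent.Work.MP_c2f093_al.PA

open Matrix

/-- letters -/
abbrev Lt (r : ℕ) := Fin r × Bool
abbrev M2 (K : Type) := Matrix (Fin 2) (Fin 2) K

variable {r : ℕ}

/-- inverse letter -/
def iv (l : Lt r) : Lt r := (l.1, !l.2)

@[simp] lemma iv_iv (l : Lt r) : iv (iv l) = l := by simp [iv]
@[simp] lemma iv_fst (l : Lt r) : (iv l).1 = l.1 := rfl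
@[simp] lemma iv_snd (l : Lt r) : (iv l).2 = !l.2 := rfl
lemma iv_ne (l : Lt r) : iv l ≠ l := by
  intro h
  have := congrArg Prod.snd h
  simp at this
lemma ne_iv_iff (a b : Lt r) : b ≠ iv a ↔ (a.1 = b.1 → a.2 = b.2) := by
  obtain ⟨i, s⟩ := a
  obtain ⟨j, t⟩ := b
  cases s <;> cases t <;> simp [iv, eq_comm]

/-- equality of `det (ρ u - lam)` and `det (ρ w - lam)` for all representations of size `ι`
over `S` -/
def DEq (ι : Type) [Fintype ι] [DecidableEq ι] (S : Type) [CommRing S]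
    (u w : FreeGroup (Fin r)) : Prop :=
  ∀ (ρ : FreeGroup (Fin r) →* Matrix ι ι S) (lam : S),
    (ρ u - lam • (1 : Matrix ι ι S)).det = (ρ w - lam • (1 : Matrix ι ι S)).det

/-- product along a word -/
def wp {M : Type} [Monoid M] (ρ : Lt r → M) (W : List (Lt r)) : M := (W.map ρ).prod

@[simp] lemma wp_nil {M : Type} [Monoid M] (ρ : Lt r → M) : wp ρ [] = 1 := rfl
@[simp] lemma wp_cons {M : Type} [Monoid M] (ρ : Lt r → M) (l : Lt r) (W : List (Lt r)) :
    wp ρ (l :: W) = ρ l * wp ρ W := by simp [wp]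
lemma wp_append {M : Type} [Monoid M] (ρ : Lt r → M) (W W' : List (Lt r)) :
    wp ρ (W ++ W') = wp ρ W * wp ρ W' := by simp [wp]

lemma wp_map {M M' : Type} [Monoid M] [Monoid M'] (φ : M →* M') (ρ : Lt r → M)
    (W : List (Lt r)) : φ (wp ρ W) = wp (fun l => φ (ρ l)) W := by
  induction W with
  | nil => simp
  | cons l W ih => simp [ih]

lemma wp_smul {K A : Type} [CommSemiring K] [Semiring A] [Algebra K A] (c : K) (ρ : Lt r → A)
    (W : List (Lt r)) : wp (fun l => c • ρ l) W = c ^ W.length • wp ρ W := by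
  induction W with
  | nil => simp
  | cons l W ih => simp [ih, smul_smul, pow_succ]

/-- a letter map compatible with inversion extends to the free group -/
lemma exists_hom {M : Type} [Monoid M] (ρ : Lt r → M) (h : ∀ l, ρ l * ρ (iv l) = 1) :
    ∃ f : FreeGroup (Fin r) →* M, ∀ W, f (FreeGroup.mk W) = wp ρ W := by
  let U : Fin r → Mˣ := fun i => ⟨ρ (i, true), ρ (i, false), h (i, true), h (i, false)⟩
  refine ⟨(Units.coeHom M).comp (FreeGroup.lift U), fun W => ?_⟩
  rw [MonoidHom.comp_apply, FreeGroup.lift_mk, map_list_prod, List.map_map, wp]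
  congr 1
  refine List.map_congr_left fun l _ => ?_
  obtain ⟨i, s⟩ := l
  cases s <;> rfl

section deriv
variable {K : Type} [CommRing K]

/-- first order term of a letter -/
def dl (ρ ρ' : Lt r → M2 K) (N : Fin r → M2 K) (l : Lt r) : M2 K :=
  if l.2 then ρ l * N l.1 else -(N l.1 * ρ' l)

/-- first order term of a word -/
def dv (ρ ρ' : Lt r → M2 K) (N : Fin r → M2 K) : List (Lt r) → M2 K
  | [] => 0
  | l :: W => dl ρ ρ' N l * wp ρ' W + ρ l * dv ρ ρ' N W

/-- realises the equation lemmas of `dv` in this module -/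
lemma dv_eqns : True := by
  have h0 := @dv.eq_def
  have h1 := @dv.eq_1
  have h2 := @dv.eq_2
  trivial

end deriv

section idem
variable (R : Type) [CommRing R]

def pt (l : Lt r) : ℕ := 2 * l.1.val + if l.2 then 0 else 1
def sg (l : Lt r) : R := if l.2 then 1 else -1
def ev (l : Lt r) : Fin 2 → R := ![1, (pt l : R)]
def fv (l : Lt r) : Fin 2 → R := ![sg R l * (pt (iv l) : R), -sg R l]
/-- rank one idempotents -/
def E (l : Lt r) : M2 R := vecMulVec (ev R l) (fv R l)

lemma E_eq (l : Lt r) : E R l =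
    !![sg R l * (pt (iv l) : R), -sg R l; (pt l : R) * (sg R l * (pt (iv l) : R)),
      (pt l : R) * -sg R l] := by
  ext i j
  fin_cases i <;> fin_cases j <;> simp [E, ev, fv, vecMulVec_apply]

lemma E_add (l : Lt r) : E R l + E R (iv l) = 1 := by
  obtain ⟨i, s⟩ := l
  rw [E_eq, E_eq]
  ext a b
  cases s <;> fin_cases a <;> fin_cases b <;> simp [sg, pt, iv] <;> ring

lemma E_mul_iv (l : Lt r) : E R l * E R (iv l) = 0 := by
  obtain ⟨i, s⟩ := l
  rw [E_eq, E_eq]
  ext a b
  cases s <;> fin_cases a <;> fin_cases b <;>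
    simp [sg, pt, iv, Matrix.mul_apply, Fin.sum_univ_two] <;> ring

lemma E_iv_mul (l : Lt r) : E R (iv l) * E R l = 0 := by
  simpa using E_mul_iv R (iv l)

lemma E_mul_self (l : Lt r) : E R l * E R l = E R l := by
  have h := congrArg (fun M => E R l * M) (E_add R l)
  simpa [mul_add, E_mul_iv] using h

variable {R}

lemma E_map {R' : Type} [CommRing R'] (φ : R →+* R') (l : Lt r) :
    φ.mapMatrix (E R l) = E R' l := by
  rw [E_eq, E_eq]
  ext a b
  obtain ⟨i, s⟩ := l
  cases s <;> fin_cases a <;> fin_cases b <;> simp [sg]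

lemma comb_mul_iv (l : Lt r) (a b a' b' : R) :
    (a • E R l + b • E R (iv l)) * (a' • E R (iv l) + b' • E R l)
      = (a * b') • E R l + (b * a') • E R (iv l) := by
  simp only [add_mul, mul_add, smul_mul_assoc, mul_smul_comm, E_mul_iv, E_iv_mul, E_mul_self,
    smul_zero, zero_add, add_zero, smul_smul]
  rw [add_comm, mul_comm b' a, mul_comm a' b]

lemma det_comb (l : Lt r) (a b : R) : (a • E R l + b • E R (iv l)).det = a * b := by
  obtain ⟨i, s⟩ := l
  rw [E_eq, E_eq, det_fin_two]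
  cases s <;> simp [sg, pt, iv] <;> ring

end idem

section points
variable {K : Type} [Field K]

/-- the representation with parameter `z` -/
def rho (z : K) (l : Lt r) : M2 K := z⁻¹ • E K l + z • E K (iv l)

lemma rho_mul_iv {z : K} (hz : z ≠ 0) (l : Lt r) : rho z l * rho z (iv l) = 1 := by
  rw [rho, rho, iv_iv, comb_mul_iv, inv_mul_cancel₀ hz, mul_inv_cancel₀ hz, one_smul, one_smul,
    E_add]

lemma det_rho {z : K} (hz : z ≠ 0) (l : Lt r) : (rho z l).det = 1 := by
  rw [rho, det_comb, inv_mul_cancel₀ hz]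

lemma rho_map {K' : Type} [Field K'] (φ : K →+* K') (z : K) (l : Lt r) :
    φ.mapMatrix (rho z l) = rho (φ z) l := by
  rw [rho, rho, ← E_map φ, ← E_map φ]
  ext a b
  simp

/-- left eigenvector -/
def yv (T z : K) (W : List (Lt r)) : Fin 2 → K :=
  ![1, 1] ᵥ* (wp (rho z) W - T⁻¹ • (1 : M2 K))
/-- right eigenvector -/
def xv (T z : K) (W : List (Lt r)) : Fin 2 → K :=
  (wp (rho z) W - T⁻¹ • (1 : M2 K)) *ᵥ ![1, -1]
/-- normalised rows -/
def Rn (T g z : K) (W : List (Lt r)) (j : ℕ) : Fin 2 → K :=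
  yv T z W ᵥ* wp (fun l => g⁻¹ • rho z l) (W.take j)
/-- normalised columns -/
def Cn (T g z : K) (W : List (Lt r)) (j : ℕ) : Fin 2 → K :=
  wp (fun l => g⁻¹ • rho z l) (W.drop j) *ᵥ xv T z W

/-- one term of the tensor identity -/
def th {V : Type} {n : ℕ} (l : ZMod n → Lt r) (R C : ZMod n → V → Fin 2 → K) (τ : Fin r)
    (v v' : V) (a b : Fin 2) (j : ZMod n) : K :=
  if (l j).1 = τ then
    (if (l j).2 then R (j + 1) v a * C (j + 1) v' b else -(R j v a * C j v' b)) else 0

end points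

abbrev kk : Type := AlgebraicClosure ℚ
abbrev KK : Type := FractionRing (PowerSeries kk)

end Pool.Agent.Work.MP_c2f093_al.PA
end

-- merged part: Pool.Agent.Work.MP_c2f093_al.PA.DefsEqs
section
/-! Equation lemmas realised once, so that no two modules realise them separately. -/

theorem Pool.Agent.Eqs.hb0b5d6753a53 : type_of% @Pool.Agent.Work.MP_c2f093_al.PA.dv.eq_def := @Pool.Agent.Work.MP_c2f093_al.PA.dv.eq_def
end

-- merged part: Pool.Agent.Work.MP_c2f093_al.PA.Potential
section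
/-!
The potential lemma on a finite cyclic group.

PLAN. `T x : Equiv.Perm (G × Γ)`, `(a, m) ↦ (a * x, m * c a (a * x))`. (Rel0) a list `xs` in `D`
of length at most 6 with product one has `(xs.map T).prod = 1` (walk `v i = a * (take i).prod`,
use the reversed list). `D` is closed under inverses (`k = -1`), `T x⁻¹ = (T x)⁻¹`, so (Rel):
`xs, ys` in `D`, total length at most 6, equal products, give equal `T`-products; the `T x`
commute. Arithmetic: for `m ≥ 1` and `k : ℤ` there is `v` with `v` and `2 * k - v` coprime to `m`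
(`a` = product of the primes of `m` dividing `2k-1`, `b` = product of the others,
`α a + β b = 1`, `v = α a - β b`). Induction on `k` with (Rel) `2+2+2`:
`T x ^ (2k) = T (x^v) * T (x^(2k-v))`; so `T x ^ k` is a product of at most three generators with
product `x ^ k`; (B) `x^k = y^j → T x ^ k = T y ^ j`, `x^k = 1 → T x ^ k = 1`. Let `D0` generate
`Subgroup.closure D` and get by closure induction `g0` over `D0` with: `D0^k = y ∈ D → g0^k = T y`,
`D0^k = 1 → g0^k = 1`, `(g0 p).1 = p.1 * D0` (invariant: `Good y g`: `y` in the closure, `g`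
commutes with everything good, and for `D0^k = x' ∈ D`, `y^k = x'^m → g^k = T x' ^ m`).
`h a = ((g0 ^ k a) (b a, 1)).2⁻¹` with `b a` the coset representative, `b a * D0 ^ k a = a`.
-/

namespace Pool.Agent.Work.MP_c2f093_al.PA

lemma potential_cop (m : ℕ) (z : ℤ) (h : ∀ p : ℕ, p.Prime → p ∣ m → ¬ (p : ℤ) ∣ z) :
    IsCoprime z (m : ℤ) := by
  rw [Int.isCoprime_iff_nat_coprime, Int.natAbs_natCast]
  exact (Nat.coprime_of_dvd fun p hp hm hz => h p hp hm (Int.natCast_dvd.mpr hz)).symm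

lemma potential_arith (m : ℕ) (hm : m ≠ 0) (k : ℤ) :
    ∃ u : ℤ, IsCoprime (k + u) (m : ℤ) ∧ IsCoprime (k - u) (m : ℤ) := by
  classical
  let u : ℤ := ∏ p ∈ m.primeFactors.filter (fun p : ℕ => ¬ (p : ℤ) ∣ k), (p : ℤ)
  have key : ∀ p : ℕ, p.Prime → p ∣ m → ((p : ℤ) ∣ k ↔ ¬ (p : ℤ) ∣ u) := by
    intro p hp hpm
    constructor
    · intro hk hu
      obtain ⟨q, hq, hpq⟩ := ((Nat.prime_iff_prime_int.mp hp).dvd_finsetProd_iff _).mp hu
      rw [Finset.mem_filter] at hq
      have := (Nat.prime_dvd_prime_iff_eq hp (Nat.prime_of_mem_primeFactors hq.1)).mp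
        (Int.natCast_dvd_natCast.mp hpq)
      exact hq.2 (this ▸ hk)
    · intro hu
      by_contra hk
      exact hu (Finset.dvd_prod_of_mem _
        (Finset.mem_filter.mpr ⟨Nat.mem_primeFactors.mpr ⟨hp, hpm, hm⟩, hk⟩))
  refine ⟨u, potential_cop _ _ fun p hp hpm h => ?_, potential_cop _ _ fun p hp hpm h => ?_⟩
  · by_cases hk : (p : ℤ) ∣ k
    · exact (key p hp hpm).mp hk ((dvd_add_right hk).mp h)
    · exact hk ((dvd_add_left (not_not.mp (mt (key p hp hpm).mpr hk))).mp h)
  · by_cases hk : (p : ℤ) ∣ k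
    · exact (key p hp hpm).mp hk ((dvd_sub_right hk).mp h)
    · exact hk ((dvd_sub_left (not_not.mp (mt (key p hp hpm).mpr hk))).mp h)

section core
variable {G P : Type} [CommGroup G] [Finite G] [Group P] {D : Set G} {t : G → P}

/-- `g` is a product of at most `n` generators lying over `y` -/
def potentialR (D : Set G) (t : G → P) (g : P) (y : G) (n : ℕ) : Prop :=
  ∃ xs : List G, (∀ x ∈ xs, x ∈ D) ∧ xs.length ≤ n ∧ xs.prod = y ∧ (xs.map t).prod = g

omit [Finite G] in
lemma potential_mul {g g' : P} {y y' : G} {n n' : ℕ} (h : potentialR D t g y n)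
    (h' : potentialR D t g' y' n') : potentialR D t (g * g') (y * y') (n + n') := by
  obtain ⟨xs, h1, h2, h3, h4⟩ := h
  obtain ⟨ys, k1, k2, k3, k4⟩ := h'
  refine ⟨xs ++ ys, fun x hx => (List.mem_append.mp hx).elim (h1 x) (k1 x), ?_, ?_, ?_⟩
  · rw [List.length_append]; omega
  · rw [List.prod_append, h3, k3]
  · rw [List.map_append, List.prod_append, h4, k4]

omit [Finite G] in
lemma potential_gen {x : G} (hx : x ∈ D) : potentialR D t (t x) x 1 :=
  ⟨[x], by simpa using hx, by simp, by simp, by simp⟩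

variable (hD : ∀ x ∈ D, ∀ k : ℤ, IsCoprime k (orderOf x : ℤ) → x ^ k ∈ D)
  (h0 : ∀ g, potentialR D t g 1 6 → g = 1)
include hD h0

omit [Finite G] in
lemma potential_inv {g : P} {y : G} {n : ℕ} (h : potentialR D t g y n) :
    potentialR D t g⁻¹ y⁻¹ n := by
  obtain ⟨xs, h1, h2, rfl, rfl⟩ := h
  induction xs generalizing n with
  | nil => exact ⟨[], by simp, by simp, by simp, by simp⟩
  | cons x xs ih =>
    have hx : x ∈ D := h1 x (by simp)
    have hi : x⁻¹ ∈ D := by simpa using hD x hx (-1) isCoprime_one_left.neg_left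
    have e : t x * t x⁻¹ = 1 := h0 _ ⟨[x, x⁻¹], by simp [hx, hi], by simp, by simp, by simp⟩
    have := potential_mul (ih (fun z hz => h1 z (by simp [hz])) le_rfl) (potential_gen (t := t) hi)
    rw [← inv_eq_of_mul_eq_one_right e, ← mul_inv_rev, ← mul_inv_rev] at this
    obtain ⟨ys, k1, k2, k3, k4⟩ := this
    exact ⟨ys, k1, k2.trans (by simpa using h2), by simpa using k3, by simpa using k4⟩

omit [Finite G] in
lemma potential_rel {g g' : P} {y : G} {n n' : ℕ} (h : potentialR D t g y n)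
    (h' : potentialR D t g' y n') (hn : n + n' ≤ 6) : g = g' := by
  obtain ⟨xs, h1, h2, h3, h4⟩ := potential_mul h (potential_inv hD h0 h')
  exact mul_inv_eq_one.mp (h0 _ ⟨xs, h1, h2.trans hn, by simpa using h3, h4⟩)

lemma potential_short {x : G} (hx : x ∈ D) {g : P} (k : ℤ)
    (h : potentialR D t g (x ^ (2 * k)) 4) : potentialR D t g (x ^ (2 * k)) 2 := by
  obtain ⟨u, h1, h2⟩ := potential_arith (orderOf x) (orderOf_pos x).ne' k
  have := potential_mul (potential_gen (t := t) (hD x hx _ h1)) (potential_gen (hD x hx _ h2))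
  rw [← zpow_add, show k + u + (k - u) = 2 * k by ring] at this
  rwa [potential_rel hD h0 h this (by norm_num)]

lemma potential_even {x : G} (hx : x ∈ D) (k : ℤ) :
    potentialR D t (t x ^ (2 * k)) (x ^ (2 * k)) 2 := by
  have g1 := potential_gen (t := t) hx
  have g2 := potential_inv hD h0 g1
  induction k using Int.induction_on with
  | zero => exact ⟨[], by simp, by simp, by simp, by simp⟩
  | succ k ih =>
    refine potential_short hD h0 hx _ ?_
    rw [show 2 * ((k : ℤ) + 1) = 2 * k + 1 + 1 by ring]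
    simp only [zpow_add_one]
    exact potential_mul (potential_mul ih g1) g1
  | pred k ih =>
    refine potential_short hD h0 hx _ ?_
    rw [show 2 * (-(k : ℤ) - 1) = 2 * -k - 1 - 1 by ring]
    simp only [zpow_sub_one]
    exact potential_mul (potential_mul ih g2) g2

lemma potential_three {x : G} (hx : x ∈ D) (k : ℤ) : potentialR D t (t x ^ k) (x ^ k) 3 := by
  obtain ⟨j, rfl | rfl⟩ := Int.even_or_odd' k
  · obtain ⟨xs, h1, h2, h3⟩ := potential_even hD h0 hx j
    exact ⟨xs, h1, by omega, h3⟩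
  · simp only [zpow_add_one]
    exact potential_mul (potential_even hD h0 hx j) (potential_gen hx)

lemma potential_B {x y : G} (hx : x ∈ D) (hy : y ∈ D) {k j : ℤ} (h : x ^ k = y ^ j) :
    t x ^ k = t y ^ j :=
  potential_rel hD h0 (potential_three hD h0 hx k) (h ▸ potential_three hD h0 hy j) le_rfl

omit [Finite G] in
lemma potential_comm {p q : G × P} (hp : p ∈ Subgroup.closure ((fun x => (x, t x)) '' D))
    (hq : q ∈ Subgroup.closure ((fun x => (x, t x)) '' D)) : Commute p.2 q.2 := by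
  induction hp using Subgroup.closure_induction with
  | mem p hp =>
    obtain ⟨x, hx, rfl⟩ := hp
    induction hq using Subgroup.closure_induction with
    | mem q hq =>
      obtain ⟨y, hy, rfl⟩ := hq
      exact potential_rel hD h0 (potential_mul (potential_gen hx) (potential_gen hy))
        (mul_comm y x ▸ potential_mul (potential_gen hy) (potential_gen hx)) (by norm_num)
    | one => exact Commute.one_right _
    | mul a b _ _ ha hb => exact ha.mul_right hb
    | inv a _ ha => exact ha.inv_right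
  | one => exact Commute.one_left _
  | mul a b _ _ ha hb => exact ha.mul_left hb
  | inv a _ ha => exact ha.inv_left

lemma potential_core {e : G} (he : ∀ x ∈ D, ∃ j : ℤ, e ^ j = x) {g : P}
    (hg : (e, g) ∈ Subgroup.closure ((fun x => (x, t x)) '' D)) (k : ℤ) :
    (∀ x ∈ D, e ^ k = x → g ^ k = t x) ∧ (e ^ k = 1 → g ^ k = 1) := by
  constructor
  · intro x hx hk
    have : ∀ p ∈ Subgroup.closure ((fun x => (x, t x)) '' D),
        ∃ m : ℤ, p.1 ^ k = x ^ m ∧ p.2 ^ k = t x ^ m := by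
      intro p hp
      induction hp using Subgroup.closure_induction with
      | mem p hp =>
        obtain ⟨y, hy, rfl⟩ := hp
        obtain ⟨j, hj⟩ := he y hy
        have e1 : y ^ k = x ^ j := by rw [← hj, ← hk, ← zpow_mul, ← zpow_mul, mul_comm]
        exact ⟨j, e1, potential_B hD h0 hy hx e1⟩
      | one => exact ⟨0, by simp, by simp⟩
      | mul a b ha hb ia ib =>
        obtain ⟨m, a1, a2⟩ := ia
        obtain ⟨n, b1, b2⟩ := ib
        refine ⟨m + n, ?_, ?_⟩
        · rw [Prod.fst_mul, mul_zpow, a1, b1, zpow_add]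
        · rw [Prod.snd_mul, (potential_comm hD h0 ha hb).mul_zpow, a2, b2, zpow_add]
      | inv a _ ia =>
        obtain ⟨m, a1, a2⟩ := ia
        exact ⟨-m, by simp [a1], by simp [a2]⟩
    obtain ⟨m, m1, m2⟩ := this _ hg
    have := potential_B hD h0 hx hx (k := m) (j := 1) (by rw [← m1, zpow_one]; exact hk)
    rw [zpow_one] at this
    exact m2.trans this
  · intro hk
    have : ∀ p ∈ Subgroup.closure ((fun x => (x, t x)) '' D), p.2 ^ k = 1 := by
      intro p hp
      induction hp using Subgroup.closure_induction with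
      | mem p hp =>
        obtain ⟨y, hy, rfl⟩ := hp
        obtain ⟨j, hj⟩ := he y hy
        have e1 : y ^ k = y ^ (0 : ℤ) := by
          rw [← hj, ← zpow_mul, mul_comm, zpow_mul, hk, one_zpow, zpow_zero]
        simpa using potential_B hD h0 hy hy e1
      | one => simp
      | mul a b ha hb ia ib =>
        rw [Prod.snd_mul, (potential_comm hD h0 ha hb).mul_zpow, ia, ib, one_mul]
      | inv a _ ia => simp [ia]
    exact this _ hg

end core

/-- the step permutation -/
def potentialT {G Γ : Type} [CommGroup G] [CommGroup Γ] (c : G → G → Γ) (x : G) :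
    Equiv.Perm (G × Γ) where
  toFun p := (p.1 * x, p.2 * c p.1 (p.1 * x))
  invFun p := (p.1 / x, p.2 / c (p.1 / x) p.1)
  left_inv p := by simp
  right_inv p := by simp

lemma potential_walk {G Γ : Type} [CommGroup G] [CommGroup Γ] (c : G → G → Γ) (xs : List G)
    (p : G × Γ) : (xs.reverse.map (potentialT c)).prod p = (p.1 * xs.prod, p.2 *
      ∏ i : Fin xs.length, c (p.1 * (xs.take i).prod) (p.1 * (xs.take (i + 1)).prod)) := by
  induction xs generalizing p with
  | nil => simp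
  | cons x xs ih =>
    rw [List.reverse_cons, List.map_append, List.prod_append, Equiv.Perm.mul_apply, ih]
    simp [potentialT, Fin.prod_univ_succ, mul_assoc]

lemma potential_rel0 {G Γ : Type} [CommGroup G] [CommGroup Γ] {D : Set G} {c : G → G → Γ}
    (hc : ∀ L ≤ 6, ∀ v : Fin L → G, (∀ i, v (finRotate L i) / v i ∈ D) →
      ∏ i, c (v i) (v (finRotate L i)) = 1) :
    ∀ g, potentialR D (potentialT c) g 1 6 → g = 1 := by
  rintro _ ⟨ys, h1, h2, h3, rfl⟩
  obtain ⟨xs, rfl⟩ : ∃ xs : List G, ys = xs.reverse := ⟨ys.reverse, by simp⟩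
  simp only [List.mem_reverse, List.length_reverse, List.prod_reverse] at h1 h2 h3
  refine Equiv.ext fun p => ?_
  have rot : ∀ i : Fin xs.length,
      (xs.take (finRotate xs.length i : ℕ)).prod = (xs.take (i + 1)).prod := by
    intro i
    cases xs with
    | nil => exact i.elim0
    | cons x xs =>
      have e : (finRotate (x :: xs).length i : ℕ) = if i.val = xs.length then 0 else i.val + 1 := by
        refine (coe_finRotate (n := xs.length) i).trans (if_congr Fin.ext_iff rfl rfl)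
      rw [e]
      split_ifs with h
      · rw [h, List.take_of_length_le (l := x :: xs) (i := xs.length + 1) (by simp), h3]; simp
      · rfl
  have := hc _ h2 (fun i => p.1 * (xs.take i).prod) fun i => by
    rw [rot, List.take_succ_eq_append_getElem i.2, List.prod_append]
    simpa using h1 _ (List.getElem_mem i.2)
  simp only [rot] at this
  rw [potential_walk, this, h3]
  simp

theorem potential {G Γ : Type} [CommGroup G] [Finite G] [IsCyclic G] [CommGroup Γ] (D : Set G)
    (hD : ∀ x ∈ D, ∀ k : ℤ, IsCoprime k (orderOf x : ℤ) → x ^ k ∈ D) (c : G → G → Γ)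
    (hc : ∀ L ≤ 6, ∀ v : Fin L → G, (∀ i, v (finRotate L i) / v i ∈ D) →
      ∏ i, c (v i) (v (finRotate L i)) = 1) :
    ∃ h : G → Γ, ∀ a, ∀ x ∈ D, c a (a * x) = h a / h (a * x) := by
  have h0 := potential_rel0 hc
  obtain ⟨e, he⟩ := IsCyclic.exists_generator (α := Subgroup.closure D)
  have he' : ∀ y ∈ Subgroup.closure D, ∃ j : ℤ, (e : G) ^ j = y := fun y hy => by
    obtain ⟨j, hj⟩ := he ⟨y, hy⟩
    exact ⟨j, by simpa using congrArg Subtype.val hj⟩
  have sur : ∀ y ∈ Subgroup.closure D,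
      ∃ g, (y, g) ∈ Subgroup.closure ((fun x => (x, potentialT c x)) '' D) := by
    intro y hy
    induction hy using Subgroup.closure_induction with
    | mem y hy => exact ⟨_, Subgroup.subset_closure ⟨y, hy, rfl⟩⟩
    | one => exact ⟨1, one_mem _⟩
    | mul a b _ _ ia ib => exact ⟨_, mul_mem ia.choose_spec ib.choose_spec⟩
    | inv a _ ia => exact ⟨_, inv_mem ia.choose_spec⟩
  have hov : ∀ q ∈ Subgroup.closure ((fun x => (x, potentialT c x)) '' D),
      ∀ p, (q.2 p).1 = p.1 * q.1 := by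
    intro q hq
    induction hq using Subgroup.closure_induction with
    | mem q hq => obtain ⟨x, -, rfl⟩ := hq; exact fun p => rfl
    | one => simp
    | mul a b _ _ ia ib =>
      intro p
      rw [Prod.snd_mul, Equiv.Perm.mul_apply, ia, ib, Prod.fst_mul, mul_right_comm, mul_assoc]
    | inv a _ ia =>
      intro p
      have := ia (a.2⁻¹ p)
      rw [← Equiv.Perm.mul_apply, mul_inv_cancel, Equiv.Perm.one_apply] at this
      rw [Prod.snd_inv, Prod.fst_inv, this, mul_inv_cancel_right]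
  obtain ⟨g, hg⟩ := sur e e.2
  have core := potential_core hD h0 (fun x hx => he' x (Subgroup.subset_closure hx)) hg
  let b : G → G := fun a => (QuotientGroup.mk a : G ⧸ Subgroup.closure D).out
  have hb : ∀ a, ∃ k : ℤ, (e : G) ^ k = (b a)⁻¹ * a := fun a =>
    he' _ (QuotientGroup.eq.mp (QuotientGroup.out_eq' _))
  choose k hk using hb
  refine ⟨fun a => ((g ^ k a) (b a, 1)).2⁻¹, fun a x hx => ?_⟩
  have hx' := Subgroup.subset_closure hx
  obtain ⟨j, hj⟩ := he' x hx'
  have b1 : b (a * x) = b a := congrArg Quotient.out (QuotientGroup.mk_mul_of_mem a hx')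
  have e1 : g ^ k (a * x) = potentialT c x * g ^ k a := by
    have := (core (k (a * x) - (j + k a))).2 (by
      rw [zpow_sub, zpow_add, hk, hk, hj, b1, mul_comm x, mul_assoc (b a)⁻¹ a x, mul_inv_cancel])
    rw [zpow_sub, mul_inv_eq_one, zpow_add, (core j).1 x hx hj] at this
    exact this
  have e2 : ((g ^ k a) (b a, 1)).1 = a := by
    have := hov _ (zpow_mem hg (k a)) (b a, 1)
    simpa [hk] using this
  simp only [e1, b1, Equiv.Perm.mul_apply]
  change _ = _ / (_ * c ((g ^ k a) (b a, 1)).1 (((g ^ k a) (b a, 1)).1 * x))⁻¹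
  rw [e2]
  simp

end Pool.Agent.Work.MP_c2f093_al.PA
end

-- merged part: Pool.Agent.Work.MP_c2f093_al.PA.Edge
section
/-!
Edges and potential; naturality, eigenvectors and the closed form of the first order pairing.
-/

namespace Pool.Agent.Work.MP_c2f093_al.PA

open Matrix

variable {r : ℕ}

theorem edge_potential {G K Ω : Type} [CommGroup G] [Finite G] [IsCyclic G] [Field K]
    (Φ Ψ : G → G → Ω → K)
    (hcyc : ∀ L ≤ 6, ∀ (v : Fin L → G) (N : Fin L → Ω),
      ∏ i, Φ (v i) (v (finRotate L i)) (N i) = ∏ i, Ψ (v i) (v (finRotate L i)) (N i))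
    (hrΦ : ∀ a b c, (∃ N, Φ a b N ≠ 0) → ∃ N, Φ (a * c) (b * c) N ≠ 0)
    (hrΨ : ∀ a b c, (∃ N, Ψ a b N ≠ 0) → ∃ N, Ψ (a * c) (b * c) N ≠ 0)
    (hgΦ : ∀ x, ∀ k : ℤ, IsCoprime k (orderOf x : ℤ) → (∃ N, Φ 1 x N ≠ 0) →
      ∃ N, Φ 1 (x ^ k) N ≠ 0)
    (hgΨ : ∀ x, ∀ k : ℤ, IsCoprime k (orderOf x : ℤ) → (∃ N, Ψ 1 x N ≠ 0) →
      ∃ N, Ψ 1 (x ^ k) N ≠ 0) :
    ∃ h : G → Kˣ, ∀ a b N, Φ a b N = (h a : K) / h b * Ψ a b N := by
  classical
  have h2 : ∀ a b N N', Φ a b N * Φ b a N' = Ψ a b N * Ψ b a N' := by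
    intro a b N N'
    have := hcyc 2 (by norm_num) ![a, b] ![N, N']
    simpa [Fin.prod_univ_two, finRotate_apply] using this
  have sym : ∀ (Θ : G → G → Ω → K),
      (∀ a b c, (∃ N, Θ a b N ≠ 0) → ∃ N, Θ (a * c) (b * c) N ≠ 0) →
      (∀ x, ∀ k : ℤ, IsCoprime k (orderOf x : ℤ) → (∃ N, Θ 1 x N ≠ 0) → ∃ N, Θ 1 (x ^ k) N ≠ 0) →
      ∀ a b, (∃ N, Θ a b N ≠ 0) → ∃ N, Θ b a N ≠ 0 := by
    intro Θ hr hg a b h
    have h1 := hr a b a⁻¹ h
    rw [mul_inv_cancel] at h1
    have h3 := hr _ _ b (hg _ (-1) (isCoprime_one_left.neg_left) h1)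
    simpa using h3
  have hc : ∀ a b, ∃ c : Kˣ, (∃ N, Φ a b N ≠ 0) → ∀ N, Φ a b N = c * Ψ a b N := by
    intro a b
    by_cases h : ∃ N, Φ a b N ≠ 0
    · obtain ⟨N', hN'⟩ := sym Φ hrΦ hgΦ a b h
      obtain ⟨N, hN⟩ := h
      have h3 : Ψ b a N' ≠ 0 := by
        intro h0
        have := h2 a b N N'
        rw [h0, mul_zero] at this
        exact mul_ne_zero hN hN' this
      refine ⟨Units.mk0 (Ψ b a N' / Φ b a N') (div_ne_zero h3 hN'), fun _ M => ?_⟩
      rw [Units.val_mk0, div_mul_eq_mul_div, eq_div_iff hN', h2, mul_comm]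
    · exact ⟨1, fun h' => absurd h' h⟩
  choose c hc using hc
  have hE : ∀ a b, b / a ∈ {x | ∃ N, Φ 1 x N ≠ 0} → ∃ N, Φ a b N ≠ 0 := by
    intro a b h
    simpa using hrΦ _ _ a h
  obtain ⟨h, hh⟩ := potential {x | ∃ N, Φ 1 x N ≠ 0} (fun x hx k hk => hgΦ x k hk hx) c (by
    intro L hL v hv
    choose N hN using fun i => hE _ _ (hv i)
    have h3 := hcyc L hL v N
    have h4 : ∏ i, Φ (v i) (v (finRotate L i)) (N i) =
        (∏ i, (c (v i) (v (finRotate L i)) : K)) * ∏ i, Ψ (v i) (v (finRotate L i)) (N i) := by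
      rw [← Finset.prod_mul_distrib]
      exact Finset.prod_congr rfl fun i _ => hc _ _ ⟨_, hN i⟩ _
    have h5 : ∏ i, Φ (v i) (v (finRotate L i)) (N i) ≠ 0 :=
      Finset.prod_ne_zero_iff.2 fun i _ => hN i
    rw [← h3] at h4
    apply Units.ext
    rw [Units.coe_prod, Units.val_one]
    exact mul_right_cancel₀ h5 (by rw [← h4, one_mul]))
  refine ⟨h, fun a b N => ?_⟩
  by_cases hab : ∃ N, Φ a b N ≠ 0
  · have h3 := hrΦ a b a⁻¹ hab
    rw [mul_inv_cancel] at h3
    have h4 := hh a (b * a⁻¹) h3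
    rw [mul_comm b, mul_inv_cancel_left] at h4
    rw [hc a b hab N, h4, Units.val_div_eq_div_val]
  · have h3 : Ψ a b N = 0 := by
      by_contra h0
      obtain ⟨N', hN'⟩ := sym Ψ hrΨ hgΨ a b ⟨N, h0⟩
      refine hab ⟨N, fun h1 => ?_⟩
      have := h2 a b N N'
      rw [h1, zero_mul] at this
      exact mul_ne_zero h0 hN' this.symm
    rw [h3, mul_zero]
    by_contra h0
    exact hab ⟨N, h0⟩

section natural
variable {K K' : Type} [Field K] [Field K'] (φ : K →+* K')

/-- the first order pairing -/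
def phi (T z z' : K) (W : List (Lt r)) (N : Fin r → M2 K) : K :=
  ((yv T z W ᵥ* dv (rho z) (rho z') N W) ⬝ᵥ xv T z' W) / (yv T z W ⬝ᵥ xv T z W)

lemma wp_rho_map (z : K) (W : List (Lt r)) :
    φ.mapMatrix (wp (rho z) W) = wp (rho (φ z)) W := by
  have h := wp_map (φ.mapMatrix (m := Fin 2)).toMonoidHom (rho z) W
  simpa only [RingHom.toMonoidHom_eq_coe, MonoidHom.coe_coe, rho_map] using h

lemma dv_map (z z' : K) (N : Fin r → M2 K) (W : List (Lt r)) :
    φ.mapMatrix (dv (rho z) (rho z') N W) =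
      dv (rho (φ z)) (rho (φ z')) (fun i => φ.mapMatrix (N i)) W := by
  induction W with
  | nil => simp [dv]
  | cons l W ih =>
    rw [dv, dv, map_add, map_mul, map_mul, ih, wp_rho_map, rho_map]
    congr 2
    unfold dl
    split_ifs
    · rw [map_mul, rho_map]
    · rw [map_neg, map_mul, rho_map]

lemma sub_map (T z : K) (W : List (Lt r)) :
    (wp (rho z) W - T⁻¹ • (1 : M2 K)).map φ = wp (rho (φ z)) W - (φ T)⁻¹ • (1 : M2 K') := by
  rw [← wp_rho_map]
  ext a b
  simp [Matrix.one_apply, apply_ite φ]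

lemma yv_map (T z : K) (W : List (Lt r)) : φ ∘ yv T z W = yv (φ T) (φ z) W := by
  funext a
  have h : φ ∘ ![1, 1] = ![1, 1] := by
    funext b
    fin_cases b <;> simp
  rw [Function.comp_apply, yv, yv, RingHom.map_vecMul, sub_map, h]

lemma xv_map (T z : K) (W : List (Lt r)) : φ ∘ xv T z W = xv (φ T) (φ z) W := by
  funext a
  have h : φ ∘ ![1, -1] = ![1, -1] := by
    funext b
    fin_cases b <;> simp
  rw [Function.comp_apply, xv, xv, RingHom.map_mulVec, sub_map, h]

lemma phi_map (T z z' : K) (W : List (Lt r)) (N : Fin r → M2 K) :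
    φ (phi T z z' W N) = phi (φ T) (φ z) (φ z') W (fun i => φ.mapMatrix (N i)) := by
  rw [phi, phi, map_div₀, RingHom.map_dotProduct, RingHom.map_dotProduct, yv_map, xv_map, xv_map,
    ← dv_map, ← yv_map]
  congr 2
  funext a
  rw [Function.comp_apply, RingHom.map_vecMul]
  rfl

end natural

section eigen
variable {K : Type} [Field K]

lemma det_wp_rho {z : K} (hz : z ≠ 0) (W : List (Lt r)) : (wp (rho z) W).det = 1 := by
  induction W with
  | nil => simp
  | cons l W ih => rw [wp_cons, det_mul, ih, det_rho hz, one_mul]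

lemma ch_two (U : M2 K) : U * U = U.trace • U - U.det • (1 : M2 K) := by
  rw [trace_fin_two, det_fin_two]
  ext a b
  fin_cases a <;> fin_cases b <;> simp [Matrix.mul_apply, Fin.sum_univ_two] <;> ring

lemma eig_left {U : M2 K} {T : K} (hT : T ≠ 0) (h1 : U.det = 1) (h2 : U.trace = T + T⁻¹) :
    (U - T⁻¹ • (1 : M2 K)) * U = T • (U - T⁻¹ • (1 : M2 K)) := by
  rw [sub_mul, ch_two, h1, h2, smul_mul_assoc, one_mul, smul_sub, smul_smul, mul_inv_cancel₀ hT,
    add_smul]
  abel

lemma eig_right {U : M2 K} {T : K} (hT : T ≠ 0) (h1 : U.det = 1) (h2 : U.trace = T + T⁻¹) :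
    U * (U - T⁻¹ • (1 : M2 K)) = T • (U - T⁻¹ • (1 : M2 K)) := by
  rw [← eig_left hT h1 h2, mul_sub, sub_mul, smul_mul_assoc, mul_smul_comm, one_mul, mul_one]

variable {T z : K} {W : List (Lt r)}

lemma yv_eig (hT : T ≠ 0) (hz : z ≠ 0) (h : (wp (rho z) W).trace = T + T⁻¹) :
    yv T z W ᵥ* wp (rho z) W = T • yv T z W := by
  rw [yv, vecMul_vecMul, eig_left hT (det_wp_rho hz W) h, vecMul_smul]

lemma xv_eig (hT : T ≠ 0) (hz : z ≠ 0) (h : (wp (rho z) W).trace = T + T⁻¹) :
    wp (rho z) W *ᵥ xv T z W = T • xv T z W := by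
  rw [xv, mulVec_mulVec, eig_right hT (det_wp_rho hz W) h, smul_mulVec]

lemma dot_ne_zero {U : M2 K} {y x : Fin 2 → K} (hy : y ᵥ* U = T • y) (hx : U *ᵥ x = T • x)
    (hκ : U.trace - 2 * T ≠ 0) (hy0 : y ≠ 0) (hx0 : x ≠ 0) : y ⬝ᵥ x ≠ 0 := by
  intro h
  have y0 := congrFun hy 0
  have y1 := congrFun hy 1
  have x0 := congrFun hx 0
  have x1 := congrFun hx 1
  simp only [vecMul, mulVec, dotProduct, Fin.sum_univ_two, Pi.smul_apply, smul_eq_mul,
    trace_fin_two] at h y0 y1 x0 x1 hκ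
  obtain ⟨a, ha⟩ := Function.ne_iff.1 hx0
  obtain ⟨b, hb⟩ := Function.ne_iff.1 hy0
  refine mul_ne_zero hκ (mul_ne_zero ha hb) ?_
  fin_cases a <;> fin_cases b <;> simp only [Fin.zero_eta, Fin.mk_one, Fin.isValue]
  · linear_combination x 0 * y0 - y 1 * x1 + (U 1 1 - T) * h
  · linear_combination y 1 * x0 + x 0 * y1 - U 0 1 * h
  · linear_combination x 1 * y0 + y 0 * x1 - U 1 0 * h
  · linear_combination x 1 * y1 - y 0 * x0 + (U 0 0 - T) * h

end eigen

end Pool.Agent.Work.MP_c2f093_al.PA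
end

-- merged part: Pool.Agent.Work.MP_c2f093_al.PA.Cycle
section
/-!
The cycle identity (first order perturbation of a block diagonal representation).

PLAN. `S = K⟦X⟧`. Letter map on `Fin 2 × I`: for `(g, true)` the matrix
`blockDiagonal (ρ · (g, true)) * (1 + X • Nbig g)`, for `(g, false)` the matrix
`G g * blockDiagonal (ρ · (g, false))` with `G g` the inverse of `1 + X • Nbig g` (its determinant
has constant term one); `Nbig g (a, i) (b, j) = if j = σ i then N i g a b else 0`. `exists_hom`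
gives a representation. With `c0 M = M.map constantCoeff`, `c1 M = M.map (coeff 1)` and the
Leibniz rule, induction on the word: `c0 = blockDiagonal (wp (ρ ·) W)`, block `(i, j)` of `c1` is
`if j = σ i then dv (ρ i) (ρ j) (N i) W else 0`. Determinant lemma (used for both words): if
`c0 M = blockDiagonal V`, `y i ᵥ* V i = 0`, `V i *ᵥ x i = 0`, `trace (V i) = κ`, then with
`Y i = !![y0, y1; -x1, x0]`, `Xm i = !![x0, -y1; x1, y0]` (determinants `d i = y i ⬝ᵥ x i`,
`Y i * V i * Xm i = !![0, 0; 0, κ * d i]`) the rows `(0, i)` of `Y * M * Xm` are divisible by `X`: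
`Y * M * Xm = diagonal (X or 1) * M'`, and `c0 M'` is block triangular (reindex `Fin 2 × I` to
`I ⊕ I`, `det_fromBlocks_zero₂₁`), so
`(∏ d) ^ 2 * coeff (card I) (det M) = ∏ (κ * d i) * det (y i ᵥ* c1 block (i, j) ⬝ᵥ x j)`.
The last determinant is `sign σ * ∏ i, ..` (`det_permutation`, `Equiv.Perm.permMatrix`).
-/

namespace Pool.Agent.Work.MP_c2f093_al.PA

open Matrix

variable {r : ℕ}

section helpers
open PowerSeries

variable {K : Type} [Field K] {I : Type} [Fintype I] [DecidableEq I]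

/-- constant term of a matrix of power series -/
noncomputable def cycle_c0 {ι : Type} (M : Matrix ι ι K⟦X⟧) : Matrix ι ι K :=
  M.map constantCoeff

/-- linear term of a matrix of power series -/
noncomputable def cycle_c1 {ι : Type} (M : Matrix ι ι K⟦X⟧) : Matrix ι ι K :=
  M.map (coeff 1)

/-- constant matrix -/
noncomputable def cycle_cc {ι : Type} (M : Matrix ι ι K) : Matrix ι ι K⟦X⟧ := M.map C

/-- blocks along a permutation -/
def cycle_sb (σ : Equiv.Perm I) (B : I → M2 K) : Matrix (Fin 2 × I) (Fin 2 × I) K :=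
  Matrix.of fun p q => if q.2 = σ p.2 then B p.2 p.1 q.1 else 0

section basic
variable {ι : Type} [Fintype ι]

lemma cycle_c0_mul (A B : Matrix ι ι K⟦X⟧) :
    cycle_c0 (A * B) = cycle_c0 A * cycle_c0 B := by
  ext p q
  simp [cycle_c0, Matrix.mul_apply]

lemma cycle_c1_mul (A B : Matrix ι ι K⟦X⟧) :
    cycle_c1 (A * B) = cycle_c1 A * cycle_c0 B + cycle_c0 A * cycle_c1 B := by
  ext p q
  simp only [cycle_c0, cycle_c1, Matrix.mul_apply, Matrix.map_apply, map_sum, Matrix.add_apply,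
    coeff_one_mul, Finset.sum_add_distrib]
  congr 1
  exact Finset.sum_congr rfl fun _ _ => mul_comm _ _

lemma cycle_cc_mul (A B : Matrix ι ι K) : cycle_cc (A * B) = cycle_cc A * cycle_cc B := by
  ext1 p q
  simp [cycle_cc, Matrix.mul_apply]

omit [Fintype ι] in
lemma cycle_c0_cc (A : Matrix ι ι K) : cycle_c0 (cycle_cc A) = A := by
  ext p q
  simp [cycle_c0, cycle_cc]

omit [Fintype ι] in
lemma cycle_c1_cc (A : Matrix ι ι K) : cycle_c1 (cycle_cc A) = 0 := by
  ext p q
  simp [cycle_c1, cycle_cc]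

variable [DecidableEq ι]

omit [Fintype ι] in
lemma cycle_cc_one : cycle_cc (1 : Matrix ι ι K) = 1 :=
  Matrix.map_one _ (map_zero _) (map_one _)

omit [Fintype ι] in
lemma cycle_c0_one : cycle_c0 (1 : Matrix ι ι K⟦X⟧) = 1 := by
  rw [← cycle_cc_one, cycle_c0_cc]

omit [Fintype ι] in
lemma cycle_c1_one : cycle_c1 (1 : Matrix ι ι K⟦X⟧) = 0 := by
  rw [← cycle_cc_one, cycle_c1_cc]

omit [Fintype ι] in
lemma cycle_c0_pert (A : Matrix ι ι K) :
    cycle_c0 (1 + (X : K⟦X⟧) • cycle_cc A) = 1 := by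
  ext p q
  by_cases h : p = q <;> simp [cycle_c0, cycle_cc, Matrix.one_apply, h]

omit [Fintype ι] in
lemma cycle_c1_pert (A : Matrix ι ι K) :
    cycle_c1 (1 + (X : K⟦X⟧) • cycle_cc A) = A := by
  ext p q
  have h1 : coeff 1 ((X : K⟦X⟧) * C (A p q)) = A p q := by
    rw [coeff_succ_X_mul]; simp
  by_cases h : p = q
  · subst h
    simp [cycle_c1, cycle_cc, coeff_one, h1]
  · simp [cycle_c1, cycle_cc, h, h1]

lemma cycle_det_c0 (M : Matrix ι ι K⟦X⟧) : constantCoeff M.det = (cycle_c0 M).det :=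
  RingHom.map_det _ _

lemma cycle_det_cc (M : Matrix ι ι K) : (cycle_cc M).det = C M.det :=
  (RingHom.map_det _ _).symm

lemma cycle_inv (A : Matrix ι ι K) : ∃ G : Matrix ι ι K⟦X⟧,
    (1 + (X : K⟦X⟧) • cycle_cc A) * G = 1 ∧ G * (1 + (X : K⟦X⟧) • cycle_cc A) = 1 ∧
      cycle_c0 G = 1 ∧ cycle_c1 G = -A := by
  have hu : IsUnit (1 + (X : K⟦X⟧) • cycle_cc A).det := by
    rw [isUnit_iff_constantCoeff, cycle_det_c0, cycle_c0_pert, det_one]
    exact isUnit_one
  have h1 := Matrix.mul_nonsing_inv _ hu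
  have h0 : cycle_c0 (1 + (X : K⟦X⟧) • cycle_cc A)⁻¹ = 1 := by
    have := congrArg cycle_c0 h1
    rwa [cycle_c0_mul, cycle_c0_pert, cycle_c0_one, Matrix.one_mul] at this
  refine ⟨_, h1, Matrix.nonsing_inv_mul _ hu, h0, ?_⟩
  have := congrArg cycle_c1 h1
  rw [cycle_c1_mul, cycle_c0_pert, cycle_c1_pert, cycle_c1_one, h0, Matrix.one_mul,
    Matrix.mul_one] at this
  exact eq_neg_of_add_eq_zero_right this

end basic

lemma cycle_bd_sb (σ : Equiv.Perm I) (V B : I → M2 K) :
    blockDiagonal V * cycle_sb σ B = cycle_sb σ fun i => V i * B i := by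
  ext ⟨a, i⟩ ⟨b, j⟩
  simp only [cycle_sb, Matrix.mul_apply, blockDiagonal_apply, Matrix.of_apply,
    Fintype.sum_prod_type, ite_mul, zero_mul, Finset.sum_ite_eq, Finset.mem_univ, if_true]
  split_ifs <;> simp

lemma cycle_sb_bd (σ : Equiv.Perm I) (V B : I → M2 K) :
    cycle_sb σ B * blockDiagonal V = cycle_sb σ fun i => B i * V (σ i) := by
  ext ⟨a, i⟩ ⟨b, j⟩
  simp only [cycle_sb, Matrix.mul_apply, blockDiagonal_apply, Matrix.of_apply,
    Fintype.sum_prod_type, ite_mul, zero_mul, Finset.sum_ite_eq', Finset.mem_univ, if_true]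
  by_cases h : j = σ i
  · subst h
    simp
  · simp [h, Ne.symm h]

omit [Fintype I] in
lemma cycle_sb_add (σ : Equiv.Perm I) (B B' : I → M2 K) :
    cycle_sb σ B + cycle_sb σ B' = cycle_sb σ fun i => B i + B' i := by
  ext ⟨a, i⟩ ⟨b, j⟩
  simp only [cycle_sb, Matrix.add_apply, Matrix.of_apply]
  split_ifs <;> simp

omit [Fintype I] in
lemma cycle_sb_neg (σ : Equiv.Perm I) (B : I → M2 K) :
    -cycle_sb σ B = cycle_sb σ fun i => -B i := by
  ext ⟨a, i⟩ ⟨b, j⟩
  simp only [cycle_sb, Matrix.neg_apply, Matrix.of_apply]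
  split_ifs <;> simp

/-- reindexing -/
def cycle_e (I : Type) : I ⊕ I ≃ Fin 2 × I where
  toFun := Sum.elim (fun i => (0, i)) fun i => (1, i)
  invFun p := if p.1 = 0 then Sum.inl p.2 else Sum.inr p.2
  left_inv := by rintro (i | i) <;> simp
  right_inv := by
    rintro ⟨a, i⟩
    fin_cases a <;> simp

lemma cycle_det1 (M : Matrix (Fin 2 × I) (Fin 2 × I) K⟦X⟧) (σ : Equiv.Perm I) (e : I → K)
    (B : I → M2 K) (h0 : cycle_c0 M = blockDiagonal fun i => !![0, 0; 0, e i])
    (h1 : cycle_c1 M = cycle_sb σ B) :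
    ∃ E : K⟦X⟧, M.det = X ^ Fintype.card I * E ∧
      constantCoeff E = (Equiv.Perm.sign σ.symm : ℤ) * (∏ i, B i 0 0) * ∏ i, e i := by
  let M' : Matrix (Fin 2 × I) (Fin 2 × I) K⟦X⟧ :=
    Matrix.of fun p q => if p.1 = 0 then mk fun n => coeff (n + 1) (M p q) else M p q
  have e0 : ∀ p q, constantCoeff (M p q) = blockDiagonal (fun i => !![0, 0; 0, e i]) p q :=
    fun p q => congrFun (congrFun h0 p) q
  have e1 : ∀ p q, coeff 1 (M p q) = cycle_sb σ B p q := fun p q => congrFun (congrFun h1 p) q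
  have hM : M = diagonal (fun p : Fin 2 × I => if p.1 = 0 then (X : K⟦X⟧) else 1) * M' := by
    ext1 ⟨a, i⟩ ⟨b, j⟩
    rw [diagonal_mul]
    by_cases h : a = 0
    · subst h
      have hz : constantCoeff (M (0, i) (b, j)) = 0 := by
        rw [e0, blockDiagonal_apply]
        fin_cases b <;> simp
      have := eq_X_mul_shift_add_const (M (0, i) (b, j))
      rw [hz, map_zero, add_zero] at this
      simpa [M'] using this
    · simp [M', h]
  refine ⟨M'.det, ?_, ?_⟩
  · conv_lhs => rw [hM]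
    rw [det_mul, det_diagonal, Fintype.prod_prod_type]
    simp
  · rw [cycle_det_c0, ← det_submatrix_equiv_self (cycle_e I)]
    have : (cycle_c0 M').submatrix (cycle_e I) (cycle_e I) =
        fromBlocks ((diagonal fun i => B i 0 0).submatrix id σ.symm)
          (Matrix.of fun i j => cycle_sb σ B (0, i) (1, j)) 0 (diagonal e) := by
      ext (i | i) (j | j)
      · have : (i = σ.symm j) ↔ j = σ i := by rw [Equiv.eq_symm_apply, eq_comm]
        simp [cycle_c0, cycle_e, M', ← coeff_zero_eq_constantCoeff_apply, e1, cycle_sb,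
          diagonal_apply, this]
      · simp [cycle_c0, cycle_e, M', ← coeff_zero_eq_constantCoeff_apply, e1]
      · simp [cycle_c0, cycle_e, M', e0, blockDiagonal_apply]
      · simp [cycle_c0, cycle_e, M', e0, blockDiagonal_apply, diagonal_apply]
    rw [this, det_fromBlocks_zero₂₁, det_permute', det_diagonal, det_diagonal]

lemma cycle_det2 (M : Matrix (Fin 2 × I) (Fin 2 × I) K⟦X⟧) (σ : Equiv.Perm I) (κ : K)
    (V B : I → M2 K) (y x : I → Fin 2 → K) (h0 : cycle_c0 M = blockDiagonal V)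
    (h1 : cycle_c1 M = cycle_sb σ B) (ht : ∀ i, (V i).trace = κ)
    (hy : ∀ i, y i ᵥ* V i = 0) (hx : ∀ i, V i *ᵥ x i = 0) :
    ∃ E : K⟦X⟧, C ((∏ i, y i ⬝ᵥ x i) ^ 2) * M.det = X ^ Fintype.card I * E ∧
      constantCoeff E = (Equiv.Perm.sign σ.symm : ℤ) * (∏ i, (y i ᵥ* B i) ⬝ᵥ x (σ i)) *
        ∏ i, κ * (y i ⬝ᵥ x i) := by
  let Y : I → M2 K := fun i => !![y i 0, y i 1; -x i 1, x i 0]
  let Z : I → M2 K := fun i => !![x i 0, -y i 1; x i 1, y i 0]
  obtain ⟨E, hE, hc⟩ := cycle_det1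
    (cycle_cc (blockDiagonal Y) * M * cycle_cc (blockDiagonal Z)) σ
    (fun i => κ * (y i ⬝ᵥ x i)) (fun i => Y i * B i * Z (σ i)) (by
      rw [cycle_c0_mul, cycle_c0_mul, cycle_c0_cc, cycle_c0_cc, h0, ← blockDiagonal_mul,
        ← blockDiagonal_mul]
      congr 1
      funext i
      have a0 := congrFun (hy i) 0
      have a1 := congrFun (hy i) 1
      have b0 := congrFun (hx i) 0
      have b1 := congrFun (hx i) 1
      have t := ht i
      simp only [vecMul, mulVec, dotProduct, Fin.sum_univ_two, Pi.zero_apply, trace_fin_two]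
        at a0 a1 b0 b1 t
      ext a b
      fin_cases a <;> fin_cases b <;>
        simp [Y, Z, Matrix.mul_apply, Fin.sum_univ_two, vecMul, dotProduct]
      · linear_combination x i 0 * a0 + x i 1 * a1
      · linear_combination -y i 1 * a0 + y i 0 * a1
      · linear_combination -x i 1 * b0 + x i 0 * b1
      · linear_combination (y i 0 * x i 0 + y i 1 * x i 1) * t - y i 0 * b0 - y i 1 * b1)
    (by
      rw [cycle_c1_mul, cycle_c1_mul, cycle_c1_cc, cycle_c1_cc, cycle_c0_cc, cycle_c0_cc, h1,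
        Matrix.zero_mul, zero_add, Matrix.mul_zero, add_zero, cycle_bd_sb, cycle_sb_bd])
  refine ⟨E, ?_, ?_⟩
  · rw [← hE, det_mul, det_mul, cycle_det_cc, cycle_det_cc, det_blockDiagonal, det_blockDiagonal]
    have hY : ∏ i, (Y i).det = ∏ i, y i ⬝ᵥ x i := Finset.prod_congr rfl fun i _ => by
      simp [Y, det_fin_two, dotProduct, Fin.sum_univ_two]
    have hZ : ∏ i, (Z i).det = ∏ i, y i ⬝ᵥ x i := Finset.prod_congr rfl fun i _ => by
      simp [Z, det_fin_two, dotProduct, Fin.sum_univ_two, mul_comm]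
    rw [hY, hZ, map_pow]
    ring
  · have : ∀ i, (Y i * B i * Z (σ i)) 0 0 = (y i ᵥ* B i) ⬝ᵥ x (σ i) := fun i => by
      simp [Y, Z, Matrix.mul_apply, Fin.sum_univ_two, vecMul, dotProduct]
    rw [hc, Finset.prod_congr rfl fun i _ => this i]

lemma cycle_rep (ρ : I → Lt r → M2 K) (hρ : ∀ i l, ρ i l * ρ i (iv l) = 1)
    (σ : Equiv.Perm I) (N : I → Fin r → M2 K) :
    ∃ f : FreeGroup (Fin r) →* Matrix (Fin 2 × I) (Fin 2 × I) K⟦X⟧, ∀ W,
      cycle_c0 (f (FreeGroup.mk W)) = blockDiagonal (fun i => wp (ρ i) W) ∧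
      cycle_c1 (f (FreeGroup.mk W)) = cycle_sb σ fun i => dv (ρ i) (ρ (σ i)) (N i) W := by
  choose G hG1 hG2 hG0 hGd using fun g : Fin r => cycle_inv (cycle_sb σ fun i => N i g)
  let D : Lt r → Matrix (Fin 2 × I) (Fin 2 × I) K⟦X⟧ :=
    fun l => cycle_cc (blockDiagonal fun i => ρ i l)
  have hD : ∀ l, D l * D (iv l) = 1 := fun l => by
    simp only [D]
    rw [← cycle_cc_mul, ← blockDiagonal_mul, ← cycle_cc_one, ← blockDiagonal_one]
    congr 2
    funext i
    exact hρ i l
  let P : Lt r → Matrix (Fin 2 × I) (Fin 2 × I) K⟦X⟧ := fun l =>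
    if l.2 then D l * (1 + (X : K⟦X⟧) • cycle_cc (cycle_sb σ fun i => N i l.1)) else G l.1 * D l
  have hP0 : ∀ l, cycle_c0 (P l) = blockDiagonal fun i => ρ i l := by
    rintro ⟨g, s⟩
    cases s <;> simp [P, D, cycle_c0_mul, cycle_c0_cc, cycle_c0_pert, hG0]
  have hP1 : ∀ l, cycle_c1 (P l) = cycle_sb σ fun i => dl (ρ i) (ρ (σ i)) (N i) l := by
    rintro ⟨g, s⟩
    cases s
    · simp only [P, D, dl, Bool.false_eq_true, if_false]
      rw [cycle_c1_mul, cycle_c1_cc, cycle_c0_cc, hGd, Matrix.mul_zero, add_zero,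
        Matrix.neg_mul, cycle_sb_bd, cycle_sb_neg]
    · simp only [P, D, dl, if_true]
      rw [cycle_c1_mul, cycle_c1_cc, cycle_c0_cc, cycle_c1_pert, Matrix.zero_mul, zero_add,
        cycle_bd_sb]
  obtain ⟨f, hf⟩ := exists_hom P (by
    rintro ⟨g, s⟩
    have := hD (g, s)
    cases s
    · simp only [P, iv, Bool.false_eq_true, if_false, Bool.not_false, if_true] at this ⊢
      rw [Matrix.mul_assoc, ← Matrix.mul_assoc (D _), this, Matrix.one_mul, hG2]
    · simp only [P, iv, Bool.false_eq_true, if_false, Bool.not_true, if_true] at this ⊢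
      rw [Matrix.mul_assoc, ← Matrix.mul_assoc _ (G g), hG1, Matrix.one_mul, this])
  refine ⟨f, fun W => ?_⟩
  rw [hf]
  induction W with
  | nil =>
    refine ⟨by rw [wp_nil, cycle_c0_one]; exact blockDiagonal_one.symm, ?_⟩
    rw [wp_nil, cycle_c1_one]
    ext p q
    simp [cycle_sb, dv]
  | cons l W ih =>
    refine ⟨?_, ?_⟩
    · rw [wp_cons, cycle_c0_mul, hP0, ih.1, ← blockDiagonal_mul]
      simp only [wp_cons]
    · rw [wp_cons, cycle_c1_mul, hP0, hP1, ih.1, ih.2, cycle_bd_sb, cycle_sb_bd, cycle_sb_add]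
      rfl

lemma cycle_word (σ : Equiv.Perm I) (T κ : K) (M : Matrix (Fin 2 × I) (Fin 2 × I) K⟦X⟧)
    (U B : I → M2 K) (y x : I → Fin 2 → K) (h0 : cycle_c0 M = blockDiagonal U)
    (h1 : cycle_c1 M = cycle_sb σ B) (ht : ∀ i, (U i).trace - 2 * T = κ)
    (hy : ∀ i, y i ᵥ* U i = T • y i) (hx : ∀ i, U i *ᵥ x i = T • x i) :
    ∃ E : K⟦X⟧, C ((∏ i, y i ⬝ᵥ x i) ^ 2) * (M - (C T : K⟦X⟧) • 1).det =
        X ^ Fintype.card I * E ∧
      constantCoeff E = (Equiv.Perm.sign σ.symm : ℤ) * (∏ i, (y i ᵥ* B i) ⬝ᵥ x (σ i)) *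
        ∏ i, κ * (y i ⬝ᵥ x i) := by
  refine cycle_det2 _ σ κ (fun i => U i - T • 1) B y x ?_ ?_ (fun i => ?_) (fun i => ?_)
    fun i => ?_
  · ext ⟨a, i⟩ ⟨b, j⟩
    have := congrFun (congrFun h0 (a, i)) (b, j)
    simp only [cycle_c0, Matrix.map_apply, blockDiagonal_apply] at this
    by_cases h : i = j <;> by_cases h' : a = b <;>
      simp [cycle_c0, blockDiagonal_apply, h, h'] at this ⊢ <;> exact this
  · ext p q
    have := congrFun (congrFun h1 p) q
    simp only [cycle_c1, Matrix.map_apply] at this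
    rw [← this]
    by_cases h : p = q <;> simp [cycle_c1, h]
  · rw [trace_sub, trace_smul, trace_one, ← ht i]
    simp [mul_comm]
  · rw [vecMul_sub, hy, vecMul_smul, vecMul_one, sub_self]
  · rw [sub_mulVec, hx, smul_mulVec, one_mulVec, sub_self]

end helpers

theorem cycle_identity {K : Type} [Field K] {I : Type} [Fintype I] [DecidableEq I]
    (Wu Ww : List (Lt r))
    (hD : DEq (Fin 2 × I) (PowerSeries K) (FreeGroup.mk Wu) (FreeGroup.mk Ww))
    (ρ : I → Lt r → M2 K) (hρ : ∀ i l, ρ i l * ρ i (iv l) = 1)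
    (T κ : K) (hκ : κ ≠ 0) (y x y' x' : I → Fin 2 → K)
    (htu : ∀ i, (wp (ρ i) Wu).trace - 2 * T = κ) (htw : ∀ i, (wp (ρ i) Ww).trace - 2 * T = κ)
    (hy : ∀ i, y i ᵥ* wp (ρ i) Wu = T • y i) (hx : ∀ i, wp (ρ i) Wu *ᵥ x i = T • x i)
    (hy' : ∀ i, y' i ᵥ* wp (ρ i) Ww = T • y' i) (hx' : ∀ i, wp (ρ i) Ww *ᵥ x' i = T • x' i)
    (hd : ∀ i, y i ⬝ᵥ x i ≠ 0) (hd' : ∀ i, y' i ⬝ᵥ x' i ≠ 0)
    (σ : Equiv.Perm I) (N : I → Fin r → M2 K) :
    ∏ i, ((y i ᵥ* dv (ρ i) (ρ (σ i)) (N i) Wu) ⬝ᵥ x (σ i)) / (y i ⬝ᵥ x i) =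
      ∏ i, ((y' i ᵥ* dv (ρ i) (ρ (σ i)) (N i) Ww) ⬝ᵥ x' (σ i)) / (y' i ⬝ᵥ x' i) := by
  obtain ⟨f, hf⟩ := cycle_rep ρ hρ σ N
  obtain ⟨E, hE, hc⟩ := cycle_word σ T κ _ _ _ y x (hf Wu).1 (hf Wu).2 htu hy hx
  obtain ⟨E', hE', hc'⟩ := cycle_word σ T κ _ _ _ y' x' (hf Ww).1 (hf Ww).2 htw hy' hx'
  rw [hD f (PowerSeries.C T)] at hE
  have key : PowerSeries.C ((∏ i, y' i ⬝ᵥ x' i) ^ 2) * E =
      PowerSeries.C ((∏ i, y i ⬝ᵥ x i) ^ 2) * E' := by
    refine mul_left_cancel₀ (pow_ne_zero (Fintype.card I) (PowerSeries.X_ne_zero (R := K))) ?_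
    linear_combination PowerSeries.C ((∏ i, y i ⬝ᵥ x i) ^ 2) * hE' -
      PowerSeries.C ((∏ i, y' i ⬝ᵥ x' i) ^ 2) * hE
  have k2 := congrArg PowerSeries.constantCoeff key
  rw [map_mul, map_mul, PowerSeries.constantCoeff_C, PowerSeries.constantCoeff_C, hc, hc',
    Finset.prod_mul_distrib, Finset.prod_mul_distrib] at k2
  have hp : (∏ i, y i ⬝ᵥ x i) ≠ 0 := Finset.prod_ne_zero_iff.2 fun i _ => hd i
  have hp' : (∏ i, y' i ⬝ᵥ x' i) ≠ 0 := Finset.prod_ne_zero_iff.2 fun i _ => hd' i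
  have hk : (∏ _i : I, κ) ≠ 0 := Finset.prod_ne_zero_iff.2 fun _ _ => hκ
  have hs : (((Equiv.Perm.sign σ.symm : ℤˣ) : ℤ) : K) ≠ 0 := by
    rcases Int.units_eq_one_or (Equiv.Perm.sign σ.symm) with h | h <;> simp [h]
  rw [Finset.prod_div_distrib, Finset.prod_div_distrib, div_eq_div_iff hp hp']
  refine mul_left_cancel₀ (mul_ne_zero (mul_ne_zero hs hk) (mul_ne_zero hp hp')) ?_
  linear_combination k2

end Pool.Agent.Work.MP_c2f093_al.PA
end

-- merged part: Pool.Agent.Work.MP_c2f093_al.PA.Propagate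
section
/-!
Propagation of a nonzero coefficient along the two cyclic words.

PLAN. Dual functionals of an independent family (`LinearIndependent.repr`,
`LinearMap.exists_extend`). `S i = fun v => p v • R' i v`. Heads: `hd l j = if (l j).2 then j+1
else j`, injective on the edges of one type by `hl'`. Divide `H` by `q v'`, apply the functional
dual to `C' (hd l' i)`: `S (hd l' i)` lies in the span of `R (hd l j)`, `(l j).1 = (l' i).1`.
If `(l' i).2` multiply by `e⁻¹ • L v (iv (l' i))`; in both cases `S i` lies in the span of `R j`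
with `l j = l' i ∨ l (j - 1) = iv (l' i)`. `μ i j` = functional dual to `R j` at `S i`.
`S (i+1) v = S i v ᵥ* L v (l' i)` gives `μ (i+1) (j+1) = μ i j` if `l j = l' i`, and
`μ (i+1) (j-1) = e * μ i j` otherwise (for allowed `j`; the map `j ↦ next j` is injective on the
allowed set by `hl`). Start from `μ 0 j₀ ≠ 0`. The direction is constant by `hl'`; all backward
gives `μ 0 j₀ = e ^ n * μ 0 j₀` after `n` steps.
-/

namespace Pool.Agent.Work.MP_c2f093_al.PA

open Matrix

variable {r : ℕ}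

lemma propagate_dual {K M ι : Type} [Field K] [AddCommGroup M] [Module K M] [Fintype ι]
    [DecidableEq ι] {R : ι → M} (h : LinearIndependent K R) :
    ∃ ψ : M →ₗ[K] ι → K, (∀ j, ψ (R j) = Pi.single j 1) ∧
      ∀ F ∈ Submodule.span K (Set.range R), ψ F = 0 → F = 0 := by
  obtain ⟨ψ, hψ⟩ := (Fintype.linearCombination K R).exists_leftInverse_of_injective
    (LinearMap.ker_eq_bot.2 (linearIndependent_iff_injective_fintypeLinearCombination.1 h))
  have e : ∀ c, ψ (Fintype.linearCombination K R c) = c := fun c => LinearMap.congr_fun hψ c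
  refine ⟨ψ, fun j => by simpa using e (Pi.single j 1), fun F hF h0 => ?_⟩
  rw [← Fintype.range_linearCombination] at hF
  obtain ⟨c, rfl⟩ := hF
  rw [e] at h0
  simp [h0]

lemma propagate_lt {a b : Lt r} (h : a.1 = b.1) : a = b ∨ a = iv b := by
  obtain ⟨i, s⟩ := a
  obtain ⟨j, t⟩ := b
  cases s <;> cases t <;> simp_all [iv]

/-- head of an edge -/
def propagateHd {n : ℕ} (l : ZMod n → Lt r) (j : ZMod n) : ZMod n := if (l j).2 then j + 1 else j

lemma propagate_th {K V : Type} [Field K] {n : ℕ} (l : ZMod n → Lt r)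
    (R C : ZMod n → V → Fin 2 → K) (τ : Fin r) (v v' : V) (a b : Fin 2) (j : ZMod n) :
    th l R C τ v v' a b j = ((if (l j).1 = τ then sg K (l j) else 0) * R (propagateHd l j) v a) *
      C (propagateHd l j) v' b := by
  unfold th sg propagateHd
  split_ifs <;> ring

lemma propagate_head {K V : Type} [Field K] {n : ℕ} [NeZero n] (l l' : ZMod n → Lt r)
    (hl' : ∀ j, l' (j + 1) ≠ iv (l' j)) (R R' C C' : ZMod n → V → Fin 2 → K)
    (hiC : LinearIndependent K C') (p q : V → K) (hq : ∀ v, q v ≠ 0)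
    (H : ∀ τ v v' a b, ∑ j, th l R C τ v v' a b j = p v * q v' * ∑ i, th l' R' C' τ v v' a b i)
    (i : ZMod n) : (fun v => p v • R' (propagateHd l' i) v) ∈
      Submodule.span K ((fun j => R (propagateHd l j)) '' {j | (l j).1 = (l' i).1}) := by
  obtain ⟨ψ, hψ, -⟩ := propagate_dual hiC
  have inj : ∀ k, (l' k).1 = (l' i).1 → propagateHd l' i = propagateHd l' k → k = i := by
    intro k h e
    unfold propagateHd at e
    rcases propagate_lt h with h | h
    · rw [h] at e
      split_ifs at e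
      exacts [(add_right_cancel e).symm, e.symm]
    · rw [h, iv_snd] at e
      cases h2 : (l' i).2 <;> simp only [h2, Bool.not_true, Bool.not_false, if_true,
        Bool.false_eq_true, if_false] at e
      · exact absurd (by rw [← e, h, iv_iv]) (hl' k)
      · exact absurd (by rw [e, h]) (hl' i)
  have s2 : sg K (l' i) * sg K (l' i) = 1 := by unfold sg; split_ifs <;> simp
  have key : (fun v => p v • R' (propagateHd l' i) v) = ∑ j,
      (sg K (l' i) * (if (l j).1 = (l' i).1 then sg K (l j) else 0) *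
        ψ (fun v' => (q v')⁻¹ • C (propagateHd l j) v') (propagateHd l' i)) •
          R (propagateHd l j) := by
    funext v a
    have h1 : ∑ j, ((if (l j).1 = (l' i).1 then sg K (l j) else 0) * R (propagateHd l j) v a) •
        (fun v' => (q v')⁻¹ • C (propagateHd l j) v') = p v • ∑ k,
        ((if (l' k).1 = (l' i).1 then sg K (l' k) else 0) * R' (propagateHd l' k) v a) •
          C' (propagateHd l' k) := by
      funext v' b
      have := H (l' i).1 v v' a b
      simp only [propagate_th] at this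
      simp only [Finset.sum_apply, Pi.smul_apply, smul_eq_mul]
      refine mul_left_cancel₀ (hq v') ?_
      rw [mul_left_comm, ← mul_assoc, ← this, Finset.mul_sum]
      exact Finset.sum_congr rfl fun j _ => by have := hq v'; field_simp
    have h2 := congrArg (fun F => ψ F (propagateHd l' i)) h1
    simp only [map_sum, map_smul, hψ, Finset.sum_apply, Pi.smul_apply, smul_eq_mul] at h2 ⊢
    rw [Finset.sum_eq_single i (f := fun k => _ * R' _ v a * _) (fun k _ hk => by
      by_cases h : (l' k).1 = (l' i).1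
      · rw [Pi.single_eq_of_ne fun e => hk (inj k h e), mul_zero]
      · rw [if_neg h, zero_mul, zero_mul]) (by simp), if_pos rfl, Pi.single_eq_same] at h2
    calc _ = sg K (l' i) * (p v * (sg K (l' i) * R' (propagateHd l' i) v a * 1)) := by
          linear_combination -(p v * R' (propagateHd l' i) v a) * s2
      _ = _ := by
          rw [← h2, Finset.mul_sum]
          exact Finset.sum_congr rfl fun j _ => by ring
  rw [key]
  refine Submodule.sum_mem _ fun j _ => ?_
  by_cases h : (l j).1 = (l' i).1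
  · exact Submodule.smul_mem _ _ (Submodule.subset_span ⟨j, h, rfl⟩)
  · simp [h]

theorem propagate {K V : Type} [Field K] {n : ℕ} [NeZero n] (l l' : ZMod n → Lt r)
    (hl : ∀ j, l (j + 1) ≠ iv (l j)) (hl' : ∀ j, l' (j + 1) ≠ iv (l' j))
    (L : V → Lt r → M2 K) (e : K) (he0 : e ≠ 0) (he : e ^ n ≠ 1)
    (hL : ∀ v a, L v a * L v (iv a) = e • (1 : M2 K))
    (R R' C C' : ZMod n → V → Fin 2 → K)
    (hR : ∀ j v, R (j + 1) v = R j v ᵥ* L v (l j))
    (hR' : ∀ j v, R' (j + 1) v = R' j v ᵥ* L v (l' j))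
    (hiR : LinearIndependent K R) (hiC : LinearIndependent K C') (hne : R' 0 ≠ 0)
    (p q : V → K) (hp : ∀ v, p v ≠ 0) (hq : ∀ v, q v ≠ 0)
    (H : ∀ τ v v' a b, ∑ j, th l R C τ v v' a b j = p v * q v' * ∑ i, th l' R' C' τ v v' a b i) :
    ∃ j₀, ∀ i, l' i = l (j₀ + i) := by
  let M : Lt r → (V → Fin 2 → K) →ₗ[K] V → Fin 2 → K := fun a =>
    { toFun := fun F v => F v ᵥ* L v a
      map_add' := fun F G => funext fun v => add_vecMul _ _ _
      map_smul' := fun c F => funext fun v => smul_vecMul c (F v) _ }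
  have MM : ∀ a F, M (iv a) (M a F) = e • F := fun a F => funext fun v => by
    change (F v ᵥ* L v a) ᵥ* L v (iv a) = e • F v
    rw [vecMul_vecMul, hL, vecMul_smul, vecMul_one]
  let S : ZMod n → V → Fin 2 → K := fun i v => p v • R' i v
  have MS : ∀ i, M (l' i) (S i) = S (i + 1) := fun i => funext fun v => by
    change (p v • R' i v) ᵥ* L v (l' i) = p v • R' (i + 1) v
    rw [hR', smul_vecMul]
  have MR : ∀ j, M (l j) (R j) = R (j + 1) := fun j => funext fun v => (hR j v).symm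
  have MB : ∀ j, M (iv (l (j - 1))) (R j) = e • R (j - 1) := fun j => by
    rw [← MM (l (j - 1)), MR, sub_add_cancel]
  have hS : ∀ i, S i ∈ Submodule.span K (R '' {j | l j = l' i ∨ l (j - 1) = iv (l' i)}) := by
    intro i
    have h := propagate_head l l' hl' R R' C C' hiC p q hq H i
    cases h2 : (l' i).2
    · simp only [propagateHd, h2, Bool.false_eq_true, if_false] at h
      refine Submodule.span_mono ?_ h
      rintro _ ⟨j, hj, rfl⟩
      rcases propagate_lt hj with hj | hj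
      · exact ⟨j, .inl hj, by simp [hj, h2]⟩
      · exact ⟨j + 1, .inr (by simpa using hj), by simp [hj, h2]⟩
    · simp only [propagateHd, h2, if_true] at h
      have h3 : S i = e⁻¹ • M (iv (l' i)) (S (i + 1)) := by
        rw [← MS, MM, smul_smul, inv_mul_cancel₀ he0, one_smul]
      rw [h3]
      refine Submodule.smul_mem _ _ (Submodule.mem_comap.1 (Submodule.span_le.2 ?_ h))
      rintro _ ⟨j, hj, rfl⟩
      rcases propagate_lt hj with hj | hj
      · have := MB (j + 1)
        rw [add_sub_cancel_right, hj] at this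
        simp only [SetLike.mem_coe, Submodule.mem_comap, hj, h2, if_true, this]
        exact Submodule.smul_mem _ _ (Submodule.subset_span ⟨j, .inl hj, rfl⟩)
      · have := MR j
        rw [hj] at this
        simp only [SetLike.mem_coe, Submodule.mem_comap, hj, iv_snd, h2, Bool.not_true,
          Bool.false_eq_true, if_false, this]
        exact Submodule.subset_span ⟨j + 1, .inr (by simpa using hj), rfl⟩
  obtain ⟨ψ, hψ, h0⟩ := propagate_dual hiR
  have ex : ∀ a j, l j = a → l (j - 1) ≠ iv a := fun a j h h' =>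
    hl (j - 1) (by rw [sub_add_cancel, h, h', iv_iv])
  have P : ∀ a, ∀ F ∈ Submodule.span K (R '' {j | l j = a ∨ l (j - 1) = iv a}), ∀ j,
      (¬(l j = a ∨ l (j - 1) = iv a) → ψ F j = 0) ∧ (l j = a → ψ (M a F) (j + 1) = ψ F j) ∧
        (l (j - 1) = iv a → ψ (M a F) (j - 1) = e * ψ F j) := by
    intro a F hF j
    induction hF using Submodule.span_induction with
    | zero => simp
    | add F G _ _ h1 h2 =>
      simp only [map_add, Pi.add_apply, mul_add]
      exact ⟨fun h => by rw [h1.1 h, h2.1 h, add_zero], fun h => by rw [h1.2.1 h, h2.2.1 h],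
        fun h => by rw [h1.2.2 h, h2.2.2 h]⟩
    | smul c F _ h1 =>
      simp only [map_smul, Pi.smul_apply, smul_eq_mul]
      exact ⟨fun h => by rw [h1.1 h, mul_zero], fun h => by rw [h1.2.1 h],
        fun h => by rw [h1.2.2 h, mul_left_comm]⟩
    | mem F hF =>
      obtain ⟨k, hk, rfl⟩ := hF
      refine ⟨fun h => by rw [hψ, Pi.single_eq_of_ne fun c : j = k => h (c ▸ hk)], ?_⟩
      rcases hk with hk | hk
      · rw [← hk, MR, hψ, hψ]
        refine ⟨fun _ => by simp [Pi.single_apply], fun h => ?_⟩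
        rw [Pi.single_eq_of_ne fun c : j - 1 = k + 1 => hl k (c ▸ h),
          Pi.single_eq_of_ne fun c : j = k => ex _ k rfl (c ▸ h), mul_zero]
      · have := MB k
        rw [hk, iv_iv] at this
        rw [this, map_smul, hψ, hψ, Pi.smul_apply, Pi.smul_apply, smul_eq_mul, smul_eq_mul]
        refine ⟨fun h => ?_, fun _ => by simp [Pi.single_apply]⟩
        rw [Pi.single_eq_of_ne fun c : j + 1 = k - 1 => hl j (by rw [c, hk, h]),
          Pi.single_eq_of_ne fun c : j = k => ex a k (c ▸ h) hk, mul_zero]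
  have A : ∀ i j, ψ (S i) j ≠ 0 → l j = l' i ∨ l (j - 1) = iv (l' i) := fun i j h =>
    not_not.1 fun c => h ((P _ _ (hS i) j).1 c)
  obtain ⟨j₀, hj⟩ : ∃ j, ψ (S 0) j ≠ 0 := by
    by_contra! c
    have := h0 _ (Submodule.span_mono (Set.image_subset_range _ _) (hS 0)) (funext c)
    exact hne (funext fun v => (smul_eq_zero.1 (congrFun this v)).resolve_left (hp v))
  rcases A 0 j₀ hj with h | h
  · have F : ∀ m : ℕ, ψ (S m) (j₀ + m) ≠ 0 ∧ l (j₀ + m) = l' m := fun m => by
      induction m with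
      | zero => simpa using ⟨hj, h⟩
      | succ m ih =>
        have h1 := (P _ _ (hS m) _).2.1 ih.2
        rw [MS] at h1
        rw [Nat.cast_succ, ← add_assoc]
        refine ⟨h1 ▸ ih.1, (A _ _ (h1 ▸ ih.1)).resolve_right fun c => hl' m ?_⟩
        rw [add_sub_cancel_right, ih.2] at c
        rw [c, iv_iv]
    exact ⟨j₀, fun i => by simpa using (F i.val).2.symm⟩
  · have F : ∀ m : ℕ, ψ (S m) (j₀ - m) = e ^ m * ψ (S 0) j₀ ∧ l (j₀ - m - 1) = iv (l' m) := by
      intro m
      induction m with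
      | zero => simpa using h
      | succ m ih =>
        have h1 := (P _ _ (hS m) _).2.2 ih.2
        rw [MS, ih.1, ← mul_assoc, ← pow_succ'] at h1
        rw [Nat.cast_succ, ← sub_sub]
        refine ⟨h1, (A _ _ ?_).resolve_left fun c => hl' m (c ▸ ih.2)⟩
        rw [h1]
        exact mul_ne_zero (pow_ne_zero _ he0) hj
    have := (F n).1
    rw [ZMod.natCast_self, sub_zero] at this
    exact absurd (mul_right_cancel₀ hj (this.symm.trans (one_mul _).symm)) he

end Pool.Agent.Work.MP_c2f093_al.PA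
end

-- merged part: Pool.Agent.Work.MP_c2f093_al.PA.PointsA
section
/-!
Lemmas for the points: nonvanishing along reduced words, length, Hensel.

PLAN. `fv l ⬝ᵥ ev m ≠ 0` iff `m ≠ iv l` (`pt` is injective, `ne_iv_iff`); for a reduced word
`l :: W` the product of the `E` is `α • vecMulVec (ev l) (fv last)` with `α ≠ 0`.
`length_eq`: `z = algebraMap X`, `scale_rho` with `Y = Z = 1`, compare constant terms.
`exists_root`: Hensel (`HenselianRing.is_henselian`, ideal `span {X}`) for the monic polynomial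
`C c⁻¹ * trace (wp (y ^ 2 • E l + s ^ 2 • E (iv l))) - C (1 + s ^ (2n) / c ^ 2) * y ^ n` in `y`
(degree `2n`; modulo `s` it is `y ^ (2n) - y ^ n`, simple root `1`), `c = trace (wp E W)`; then
`Y` is a unit, `Z` its inverse, `wp_smul` with `Y`.
Do not use the projection named after contiguous sublists (forbidden word); use
`List.IsChain.left_of_append`, `right_of_append`.
-/

namespace Pool.Agent.Work.MP_c2f093_al.PA

open Matrix PowerSeries

variable {r : ℕ}

lemma pointsa_sg {R : Type} [CommRing R] [IsDomain R] (l : Lt r) : sg R l ≠ 0 := by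
  unfold sg
  split_ifs <;> simp

lemma pointsa_pair {R : Type} [CommRing R] [IsDomain R] [CharZero R] {l m : Lt r}
    (h : l.1 = m.1 → l.2 = m.2) : fv R l ⬝ᵥ ev R m ≠ 0 := by
  have e : fv R l ⬝ᵥ ev R m = sg R l * ((pt (iv l) : R) - pt m) := by
    simp [fv, ev, dotProduct, Fin.sum_univ_two]
    ring
  rw [e]
  refine mul_ne_zero (pointsa_sg l) (sub_ne_zero.2 fun h' => ?_)
  have h2 := Nat.cast_injective h'
  obtain ⟨i, s⟩ := l
  obtain ⟨j, t⟩ := m
  cases s <;> cases t <;> simp [pt, iv, Fin.ext_iff] at h h2 <;> omega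

lemma pointsa_wp {R : Type} [CommRing R] [IsDomain R] [CharZero R] (W : List (Lt r)) (l : Lt r)
    (hW : FreeGroup.IsReduced (l :: W)) : ∃ α : R, α ≠ 0 ∧ wp (E R) (l :: W) =
      α • vecMulVec (ev R l) (fv R ((l :: W).getLast (List.cons_ne_nil _ _))) := by
  induction W generalizing l with
  | nil => exact ⟨1, one_ne_zero, by simp [E]⟩
  | cons m W ih =>
    obtain ⟨h1, h2⟩ := FreeGroup.isReduced_cons_cons.1 hW
    obtain ⟨α, h0, e⟩ := ih m h2
    refine ⟨α * (fv R l ⬝ᵥ ev R m), mul_ne_zero h0 (pointsa_pair h1), ?_⟩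
    rw [wp_cons, e, mul_smul_comm, E, vecMulVec_mul_vecMulVec, vecMulVec_smul, smul_smul]
    rfl

lemma pointsa_map {R R' : Type} [CommRing R] [CommRing R'] (φ : R →+* R') (a b : R)
    (W : List (Lt r)) : φ.mapMatrix (wp (fun l => a • E R l + b • E R (iv l)) W) =
      wp (fun l => φ a • E R' l + φ b • E R' (iv l)) W := by
  refine (wp_map (φ.mapMatrix : M2 R →+* M2 R').toMonoidHom _ W).trans ?_
  congr 1
  funext l
  rw [← E_map φ, ← E_map φ]
  ext i j
  simp

lemma pointsa_tr {R R' : Type} [CommRing R] [CommRing R'] (φ : R →+* R') (A : M2 R) :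
    φ A.trace = (φ.mapMatrix A).trace := AddMonoidHom.map_trace φ A

/-- nonvanishing along reduced words -/
theorem pair_ne_zero {R : Type} [CommRing R] [IsDomain R] [CharZero R] (W : List (Lt r))
    (hW : FreeGroup.IsReduced W) (hn : W ≠ []) : (![1, 1] ᵥ* wp (E R) W) ⬝ᵥ ![1, -1] ≠ 0 := by
  obtain ⟨l, W, rfl⟩ := List.exists_cons_of_ne_nil hn
  obtain ⟨α, h0, e⟩ := pointsa_wp (R := R) W l hW
  rw [e]
  generalize (l :: W).getLast (List.cons_ne_nil _ _) = m
  have e : (![1, 1] ᵥ* (α • vecMulVec (ev R l) (fv R m))) ⬝ᵥ ![1, -1] =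
      α * ((pt l + 1 : ℕ) : R) * (sg R m * ((pt (iv m) + 1 : ℕ) : R)) := by
    simp [fv, ev, dotProduct, vecMul, Fin.sum_univ_two]
    ring
  rw [e]
  exact mul_ne_zero (mul_ne_zero h0 (Nat.cast_ne_zero.2 (by omega)))
    (mul_ne_zero (pointsa_sg m) (Nat.cast_ne_zero.2 (by omega)))

theorem trace_ne_zero {R : Type} [CommRing R] [IsDomain R] [CharZero R] (W : List (Lt r))
    (hW : FreeGroup.IsCyclicallyReduced W) : (wp (E R) W).trace ≠ 0 := by
  cases W with
  | nil => simp
  | cons l W =>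
    obtain ⟨α, h0, e⟩ := pointsa_wp (R := R) W l hW.1
    rw [e, trace_smul, trace_vecMulVec, dotProduct_comm]
    exact mul_ne_zero h0 (pointsa_pair (hW.2 _ (List.getLast?_eq_some_getLast _) l rfl))

/-- the integral form of `rho` -/
theorem scale_rho (Y Z : kk⟦X⟧) (h : Y * Z = 1) (W : List (Lt r)) :
    (algebraMap kk⟦X⟧ KK X) ^ W.length • wp (rho (algebraMap kk⟦X⟧ KK (X * Z))) W =
      (algebraMap kk⟦X⟧ KK).mapMatrix
        (wp (fun l => Y • E kk⟦X⟧ l + (X ^ 2 * Z) • E kk⟦X⟧ (iv l)) W) := by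
  rw [pointsa_map, ← wp_smul]
  have h1 : algebraMap kk⟦X⟧ KK Y * algebraMap kk⟦X⟧ KK Z = 1 := by rw [← map_mul, h, map_one]
  have h2 : algebraMap kk⟦X⟧ KK X ≠ 0 :=
    (map_ne_zero_iff _ (IsFractionRing.injective kk⟦X⟧ KK)).2 X_ne_zero
  congr 1
  funext l
  rw [rho, smul_add, smul_smul, smul_smul, map_mul, map_mul, map_pow, mul_inv,
    mul_inv_cancel_left₀ h2, ← eq_inv_of_mul_eq_one_left h1, sq, mul_assoc]

theorem const_wp (Y Z : kk⟦X⟧) (W : List (Lt r)) :
    (constantCoeff (R := kk)).mapMatrix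
        (wp (fun l => Y • E kk⟦X⟧ l + (X ^ 2 * Z) • E kk⟦X⟧ (iv l)) W) =
      (constantCoeff Y) ^ W.length • wp (E kk) W := by
  rw [pointsa_map, ← wp_smul]
  simp

/-- the cyclically reduced length is determined by the traces in dimension two -/
theorem length_eq (Wu Ww : List (Lt r)) (hu : FreeGroup.IsCyclicallyReduced Wu)
    (hw : FreeGroup.IsCyclicallyReduced Ww)
    (h : ∀ z : KK, z ≠ 0 → (wp (rho z) Wu).trace = (wp (rho z) Ww).trace) :
    Wu.length = Ww.length := by
  have inj := IsFractionRing.injective kk⟦X⟧ KK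
  let a : List (Lt r) → kk⟦X⟧ := fun W =>
    (wp (fun l => (1 : kk⟦X⟧) • E kk⟦X⟧ l + ((X : kk⟦X⟧) ^ 2 * 1) • E kk⟦X⟧ (iv l)) W).trace
  have a0 : ∀ W, FreeGroup.IsCyclicallyReduced W → coeff 0 (a W) ≠ 0 := fun W hW => by
    rw [coeff_zero_eq_constantCoeff_apply, pointsa_tr, const_wp, map_one, one_pow, one_smul]
    exact trace_ne_zero W hW
  have a1 : ∀ W, algebraMap kk⟦X⟧ KK (a W) = algebraMap kk⟦X⟧ KK X ^ W.length *
      (wp (rho (algebraMap kk⟦X⟧ KK (X * 1))) W).trace := fun W => by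
    rw [pointsa_tr, ← scale_rho 1 1 (one_mul 1), trace_smul, smul_eq_mul]
  have e : X ^ Ww.length * a Wu = X ^ Wu.length * a Ww := inj (by
    rw [map_mul, map_mul, a1, a1, h _ ((map_ne_zero_iff _ inj).2 (by simp)), map_pow, map_pow,
      mul_left_comm])
  have key : ∀ {m n : ℕ} {p q : kk⟦X⟧}, X ^ m * p = X ^ n * q → coeff 0 q ≠ 0 → m ≤ n := by
    intro m n p q e hq
    have := congrArg (coeff n) e
    rw [coeff_X_pow_mul', coeff_X_pow_mul', if_pos le_rfl, Nat.sub_self] at this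
    by_contra hc
    rw [if_neg hc] at this
    exact hq this.symm
  exact le_antisymm (key e.symm (a0 _ hu)) (key e (a0 _ hw))

open Polynomial in
lemma pointsa_deg {S : Type} [CommRing S] (b : S) (W : List (Lt r)) (i j : Fin 2) :
    (wp (fun l => (Polynomial.X ^ 2 : S[X]) • E S[X] l + Polynomial.C b • E S[X] (iv l)) W
      i j).natDegree ≤ 2 * W.length ∧
    (wp (fun l => (Polynomial.X ^ 2 : S[X]) • E S[X] l + Polynomial.C b • E S[X] (iv l)) W
      i j).coeff (2 * W.length) = wp (E S) W i j := by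
  induction W generalizing i with
  | nil => by_cases h : i = j <;> simp [one_apply, h]
  | cons l W ih =>
    have h1 : ∀ k, ((Polynomial.X ^ 2 : S[X]) • E S[X] l + Polynomial.C b • E S[X] (iv l)) i k =
        Polynomial.C (E S l i k) * Polynomial.X ^ 2 + Polynomial.C (b * E S (iv l) i k) :=
      fun k => by
        rw [← E_map Polynomial.C, ← E_map Polynomial.C, map_mul, mul_comm]
        rfl
    have h2 : ∀ x y : S, (Polynomial.C x * Polynomial.X ^ 2 + Polynomial.C y).natDegree ≤ 2 :=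
      fun x y => by compute_degree
    rw [wp_cons, wp_cons, mul_apply, mul_apply, List.length_cons, mul_add, mul_one, add_comm _ 2]
    simp only [h1]
    refine ⟨natDegree_sum_le_of_forall_le _ _ fun k _ =>
      natDegree_mul_le.trans (add_le_add (h2 _ _) (ih k).1), ?_⟩
    rw [finsetSum_coeff]
    refine Finset.sum_congr rfl fun k _ => ?_
    rw [coeff_mul_add_eq_of_natDegree_le (h2 _ _) (ih k).1, (ih k).2]
    simp

/-- Hensel -/
theorem exists_root (W : List (Lt r)) (hW : FreeGroup.IsCyclicallyReduced W) (hn : W ≠ []) :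
    ∃ (c : ℚ) (Y Z : ℚ⟦X⟧), c ≠ 0 ∧ Y * Z = 1 ∧ constantCoeff Y = 1 ∧
      (wp (fun l => Y • E ℚ⟦X⟧ l + (X ^ 2 * Z) • E ℚ⟦X⟧ (iv l)) W).trace
        = C c + X ^ (2 * W.length) * C c⁻¹ := by
  have hc := trace_ne_zero (R := ℚ) W hW
  set c := (wp (E ℚ) W).trace with hcd
  have n0 : 0 < W.length := List.length_pos_iff.2 hn
  have tr : ∀ {S : Type} [CommRing S] (φ : ℚ →+* S), (wp (E S) W).trace = φ c :=
    fun {S} _ φ => by
      rw [hcd, pointsa_tr]
      simpa using congrArg trace (pointsa_map φ 1 0 W).symm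
  have cc : (C c⁻¹ * C c : ℚ⟦X⟧) = 1 := by rw [← map_mul, inv_mul_cancel₀ hc, map_one]
  let P : Polynomial ℚ⟦X⟧ := trace (wp (fun l => (Polynomial.X ^ 2 : Polynomial ℚ⟦X⟧) •
    E (Polynomial ℚ⟦X⟧) l + Polynomial.C (X ^ 2 : ℚ⟦X⟧) • E (Polynomial ℚ⟦X⟧) (iv l)) W)
  let f : Polynomial ℚ⟦X⟧ := Polynomial.C (C c⁻¹) * P -
    Polynomial.C (1 + X ^ (2 * W.length) * C c⁻¹ ^ 2) * Polynomial.X ^ W.length
  have hm : f.Monic := by
    refine Polynomial.monic_of_natDegree_le_of_coeff_eq_one (2 * W.length)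
      ((Polynomial.natDegree_sub_le _ _).trans (max_le ?_ ?_)) ?_
    · exact (Polynomial.natDegree_C_mul_le _ _).trans
        (Polynomial.natDegree_sum_le_of_forall_le _ _ fun i _ => (pointsa_deg _ W i i).1)
    · exact (Polynomial.natDegree_C_mul_X_pow_le _ _).trans (by omega)
    · rw [Polynomial.coeff_sub, Polynomial.coeff_C_mul, Polynomial.coeff_C_mul_X_pow,
        if_neg (by omega), sub_zero, ← cc, ← tr]
      congr 1
      exact (Polynomial.finsetSum_coeff _ _ _).trans
        (Finset.sum_congr rfl fun i _ => (pointsa_deg _ W i i).2)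
  have hP : P.map constantCoeff = (Polynomial.X ^ 2) ^ W.length * Polynomial.C c := by
    refine (pointsa_tr (Polynomial.mapRingHom (constantCoeff (R := ℚ))) _).trans ?_
    rw [pointsa_map, ← tr, ← smul_eq_mul, ← trace_smul, ← wp_smul]
    simp
  have hf : f.map constantCoeff = Polynomial.X ^ (2 * W.length) - Polynomial.X ^ W.length := by
    simp only [f, Polynomial.map_sub, Polynomial.map_mul, hP, Polynomial.map_C]
    rw [mul_left_comm, constantCoeff_C, ← Polynomial.C_mul, inv_mul_cancel₀ hc, ← pow_mul]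
    simp [n0.ne']
  have ev1 : ∀ g : Polynomial ℚ⟦X⟧, constantCoeff (g.eval 1) = (g.map constantCoeff).eval 1 :=
    fun g => by rw [Polynomial.eval_map, ← Polynomial.eval₂_at_one]
  obtain ⟨Y, hY, h1⟩ := HenselianRing.is_henselian (I := Ideal.span {(X : ℚ⟦X⟧)}) f hm 1
    (by rw [Ideal.mem_span_singleton, X_dvd_iff, ev1, hf]; simp)
    (IsUnit.map _ (by
      rw [isUnit_iff_constantCoeff, ev1, ← Polynomial.derivative_map, hf]
      simp [Polynomial.derivative_X_pow, two_mul, n0.ne']))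
  rw [Ideal.mem_span_singleton, X_dvd_iff, map_sub, map_one, sub_eq_zero] at h1
  obtain ⟨Z, hZ⟩ := (isUnit_iff_constantCoeff.2 (h1 ▸ isUnit_one : IsUnit (constantCoeff Y))
    ).exists_right_inv
  refine ⟨c, Y, Z, hc, hZ, h1, ?_⟩
  have e : P.eval Y = Y ^ W.length *
      (wp (fun l => Y • E ℚ⟦X⟧ l + (X ^ 2 * Z) • E ℚ⟦X⟧ (iv l)) W).trace := by
    refine (pointsa_tr (Polynomial.evalRingHom Y) _).trans ?_
    rw [pointsa_map, ← smul_eq_mul, ← trace_smul, ← wp_smul]
    simp only [smul_add, smul_smul, mul_left_comm Y, hZ]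
    simp [sq]
  have hz : Z ^ W.length * Y ^ W.length = 1 := by rw [← mul_pow, mul_comm, hZ, one_pow]
  simp only [f, Polynomial.IsRoot, Polynomial.eval_sub, Polynomial.eval_mul, Polynomial.eval_C,
    Polynomial.eval_pow, Polynomial.eval_X, e] at hY
  generalize (wp (fun l => Y • E ℚ⟦X⟧ l + (X ^ 2 * Z) • E ℚ⟦X⟧ (iv l)) W).trace = T at hY ⊢
  linear_combination (C c * Z ^ W.length) * hY - (T - X ^ (2 * W.length) * C c⁻¹) * cc -
    (C c * (C c⁻¹ * T - (1 + X ^ (2 * W.length) * C c⁻¹ ^ 2))) * hz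

end Pool.Agent.Work.MP_c2f093_al.PA
end

-- merged part: Pool.Agent.Work.MP_c2f093_al.PA.Indep
section
/-!
Linear independence from constant terms.

PLAN. `indep_of_const`: `LinearIndependent.iff_fractionRing`, show `X ^ N ∣ coefficient` for all `N` by
induction, using that a polynomial of degree below `n` vanishing on the `n`-th roots of unity of
`kk` is zero.
-/

namespace Pool.Agent.Work.MP_c2f093_al.PA

open Matrix PowerSeries

lemma indep_char {n : ℕ} [NeZero n] {ε : ℤ} (hε : ε = 1 ∨ ε = -1) :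
    LinearIndependent kk fun (j : ZMod n) (a : rootsOfUnity n kk) =>
      ((a : kkˣ) : kk) ^ (ε * (j.val : ℤ)) := by
  let χ : ZMod n → rootsOfUnity n kk →* kk := fun j =>
    ⟨⟨fun a => ((a : kkˣ) : kk) ^ (ε * (j.val : ℤ)), by simp⟩, fun a b => by simp [mul_zpow]⟩
  refine (linearIndependent_monoidHom (rootsOfUnity n kk) kk).comp χ fun i j h => ?_
  obtain ⟨z, hz⟩ := HasEnoughRootsOfUnity.exists_primitiveRoot kk n
  have h1 : z ^ (ε * (i.val : ℤ)) = z ^ (ε * (j.val : ℤ)) :=
    DFunLike.congr_fun h hz.toRootsOfUnity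
  refine ZMod.val_injective n (hz.pow_inj (ZMod.val_lt i) (ZMod.val_lt j) ?_)
  rcases hε with rfl | rfl <;> simpa [-ZMod.natCast_val] using h1

/-- descent and Vandermonde -/
theorem indep_of_const {n : ℕ} [NeZero n] (ε : ℤ) (hε : ε = 1 ∨ ε = -1)
    (P : ZMod n → rootsOfUnity n kk → Fin 2 → kk⟦X⟧) (ρ : ZMod n → Fin 2 → kk)
    (hρ : ∀ j, ρ j ≠ 0)
    (hP : ∀ j a b, constantCoeff (P j a b) = (((a : kkˣ) : kk) ^ (ε * (j.val : ℤ))) * ρ j b)
    (m : ZMod n → KK) (hm : ∀ j, m j ≠ 0) :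
    LinearIndependent KK fun j a b => m j * algebraMap kk⟦X⟧ KK (P j a b) := by
  have key : ∀ (N : ℕ) (c : ZMod n → kk⟦X⟧), (∀ a b, ∑ j, c j * P j a b = 0) →
      ∀ j, X ^ N ∣ c j := by
    intro N
    induction N with
    | zero => simp
    | succ N ih =>
      intro c hc
      have h0 : ∀ j, X ∣ c j := fun j => by
        obtain ⟨b, hb⟩ := Function.ne_iff.1 (hρ j)
        have := Fintype.linearIndependent_iff.1 (indep_char (n := n) hε)
          (fun j => constantCoeff (c j) * ρ j b) (funext fun a => by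
            have := congrArg constantCoeff (hc a b)
            simp only [map_sum, map_mul, hP, map_zero] at this
            simp only [Finset.sum_apply, Pi.smul_apply, smul_eq_mul, Pi.zero_apply, ← this]
            exact Finset.sum_congr rfl fun _ _ => by ring) j
        exact X_dvd_iff.2 ((mul_eq_zero.1 this).resolve_right hb)
      choose d hd using h0
      intro j
      rw [hd, pow_succ']
      refine mul_dvd_mul_left _ (ih d (fun a b => ?_) j)
      refine mul_left_cancel₀ (X_ne_zero (R := kk)) ?_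
      rw [mul_zero, ← hc a b, Finset.mul_sum]
      exact Finset.sum_congr rfl fun _ _ => by rw [hd, mul_assoc]
  have h : LinearIndependent KK fun j a b => algebraMap kk⟦X⟧ KK (P j a b) := by
    refine (LinearIndependent.iff_fractionRing kk⟦X⟧ KK).1
      (Fintype.linearIndependent_iff.2 fun c hc j => PowerSeries.ext fun N => ?_)
    refine X_pow_dvd_iff.1 (key (N + 1) c (fun a b => ?_) j) N N.lt_succ_self
    refine IsFractionRing.injective kk⟦X⟧ KK ?_
    have := congrFun (congrFun hc a) b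
    simpa [Algebra.smul_def] using this
  exact h.units_smul fun j => Units.mk0 (m j) (hm j)

end Pool.Agent.Work.MP_c2f093_al.PA
end

-- merged part: Pool.Agent.Work.MP_c2f093_al.PA.PointsB
section
/-!
The points: Galois conjugates of one representation over `k((s))`.
-/

namespace Pool.Agent.Work.MP_c2f093_al.PA

open Matrix PowerSeries

variable {r : ℕ}

lemma pointsb_ext (j : kk⟦X⟧ →+* kk⟦X⟧) (hj : Function.Injective j) :
    ∃ φ : KK →+* KK, ∀ f, φ (algebraMap kk⟦X⟧ KK f) = algebraMap kk⟦X⟧ KK (j f) :=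
  ⟨IsFractionRing.map hj, fun f => IsLocalization.map_eq _ f⟩

lemma pointsb_inj : Function.Injective (algebraMap kk⟦X⟧ KK) := IsFractionRing.injective _ _

lemma pointsb_s : algebraMap kk⟦X⟧ KK X ≠ 0 :=
  (map_ne_zero_iff _ pointsb_inj).2 X_ne_zero

lemma pointsb_gal {n : ℕ} [NeZero n] (x : rootsOfUnity n kk) (k : ℤ)
    (hk : IsCoprime k (orderOf x : ℤ)) :
    ∃ σ : kk →+* kk, σ ((x : kkˣ) : kk) = (((x ^ k : rootsOfUnity n kk) : kkˣ) : kk) := by
  have h1 : IsPrimitiveRoot x (orderOf x) := IsPrimitiveRoot.orderOf x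
  have h2 : IsPrimitiveRoot (x ^ k) (orderOf x) :=
    h1.zpow_of_gcd_eq_one k (Int.isCoprime_iff_gcd_eq_one.1 hk)
  have h3 := IsPrimitiveRoot.coe_units_iff.2 (IsPrimitiveRoot.coe_submonoidClass_iff.2 h1)
  have h4 := IsPrimitiveRoot.coe_units_iff.2 (IsPrimitiveRoot.coe_submonoidClass_iff.2 h2)
  have h5 : 0 < orderOf x := orderOf_pos x
  have h6 : IsConjRoot ℚ (((x ^ k : rootsOfUnity n kk) : kkˣ) : kk) ((x : kkˣ) : kk) :=
    (Polynomial.cyclotomic_eq_minpoly_rat h4 h5).symm.trans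
      (Polynomial.cyclotomic_eq_minpoly_rat h3 h5)
  have hN : Normal ℚ kk := @IsAlgClosure.normal ℚ kk _ _ _ (AlgebraicClosure.instIsAlgClosure ℚ)
  obtain ⟨σ, hσ⟩ := h6.exists_algEquiv
  exact ⟨σ.toRingEquiv.toRingHom, hσ⟩

lemma pointsb_mapM {A B : Type} [CommRing A] [CommRing B] (φ : A →+* B) (ρ : Lt r → M2 A)
    (W : List (Lt r)) : φ.mapMatrix (wp ρ W) = wp (fun l => φ.mapMatrix (ρ l)) W :=
  wp_map (φ.mapMatrix (m := Fin 2)).toMonoidHom ρ W

lemma pointsb_smul {A B : Type} [CommRing A] [CommRing B] (φ : A →+* B) (a : A) (M : M2 A) :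
    φ.mapMatrix (a • M) = φ a • φ.mapMatrix M := by
  ext i j
  simp

lemma pointsb_comb {A B : Type} [CommRing A] [CommRing B] (φ : A →+* B) (a b : A)
    (W : List (Lt r)) : φ (wp (fun l => a • E A l + b • E A (iv l)) W).trace =
      (wp (fun l => φ a • E B l + φ b • E B (iv l)) W).trace := by
  have h := pointsb_mapM φ (fun l => a • E A l + b • E A (iv l)) W
  simp only [map_add, pointsb_smul, E_map] at h
  rw [← h, RingHom.mapMatrix_apply, AddMonoidHom.map_trace]

/-- integral form of the rows and columns -/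
lemma pointsb_int (Y Z : kk⟦X⟧) (h : Y * Z = 1) (d : kk) (T g : KK) (W₁ W W₂ : List (Lt r))
    (hW : W ≠ [])
    (hT : T⁻¹ = algebraMap kk⟦X⟧ KK X ^ W.length * algebraMap kk⟦X⟧ KK (C d)) :
    ∃ P : M2 kk⟦X⟧,
      wp (fun l => g⁻¹ • rho (algebraMap kk⟦X⟧ KK (X * Z)) l) W₁ *
        (wp (rho (algebraMap kk⟦X⟧ KK (X * Z))) W - T⁻¹ • (1 : M2 KK)) *
        wp (fun l => g⁻¹ • rho (algebraMap kk⟦X⟧ KK (X * Z)) l) W₂ =
      (g⁻¹ ^ (W₁.length + W₂.length) *
        (algebraMap kk⟦X⟧ KK X)⁻¹ ^ (W₁.length + W.length + W₂.length)) •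
          (algebraMap kk⟦X⟧ KK).mapMatrix P ∧
      (constantCoeff (R := kk)).mapMatrix P =
        constantCoeff Y ^ (W₁.length + W.length + W₂.length) • wp (E kk) (W₁ ++ W ++ W₂) := by
  have hs := pointsb_s
  have h1 : ∀ V : List (Lt r), wp (rho (algebraMap kk⟦X⟧ KK (X * Z))) V =
      (algebraMap kk⟦X⟧ KK X)⁻¹ ^ V.length • (algebraMap kk⟦X⟧ KK).mapMatrix
        (wp (fun l => Y • E kk⟦X⟧ l + (X ^ 2 * Z) • E kk⟦X⟧ (iv l)) V) := by
    intro V
    rw [← scale_rho Y Z h V, smul_smul, ← mul_pow, inv_mul_cancel₀ hs, one_pow, one_smul]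
  refine ⟨wp (fun l => Y • E kk⟦X⟧ l + (X ^ 2 * Z) • E kk⟦X⟧ (iv l)) W₁ *
    (wp (fun l => Y • E kk⟦X⟧ l + (X ^ 2 * Z) • E kk⟦X⟧ (iv l)) W -
      (X ^ (2 * W.length) * C d : kk⟦X⟧) • (1 : M2 kk⟦X⟧)) *
    wp (fun l => Y • E kk⟦X⟧ l + (X ^ 2 * Z) • E kk⟦X⟧ (iv l)) W₂, ?_, ?_⟩
  · have h2 : T⁻¹ = (algebraMap kk⟦X⟧ KK X)⁻¹ ^ W.length *
        algebraMap kk⟦X⟧ KK (X ^ (2 * W.length) * C d) := by
      rw [hT, map_mul, map_pow, inv_pow, two_mul, pow_add]
      field_simp
    rw [wp_smul, wp_smul, h1, h1, h1, map_mul, map_mul, map_sub, pointsb_smul, map_one, h2,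
      mul_smul, ← smul_sub]
    simp only [smul_mul_assoc, mul_smul_comm, smul_smul]
    congr 1
    ring
  · have h2 : constantCoeff (X ^ (2 * W.length) * C d : kk⟦X⟧) = 0 := by
      have : 2 * W.length ≠ 0 := by simpa using hW
      simp [this]
    rw [map_mul, map_mul, map_sub, pointsb_smul, h2, zero_smul, sub_zero, const_wp, const_wp,
      const_wp, wp_append, wp_append]
    simp only [smul_mul_assoc, mul_smul_comm, smul_smul]
    congr 1
    ring

lemma pointsb_red {W : List (Lt r)} (hW : FreeGroup.IsCyclicallyReduced W) (j : ℕ) :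
    FreeGroup.IsReduced (W ++ W.take j) ∧ FreeGroup.IsReduced (W.drop j ++ W) := by
  have h : FreeGroup.IsReduced (W ++ W) := by simpa using (hW.flatten_replicate 2).1
  constructor
  · nth_rewrite 2 [← List.take_append_drop j W] at h
    rw [← List.append_assoc] at h
    exact List.IsChain.left_of_append h
  · nth_rewrite 1 [← List.take_append_drop j W] at h
    rw [List.append_assoc] at h
    exact List.IsChain.right_of_append h

lemma pointsb_indep {n : ℕ} [NeZero n] (Y Z : rootsOfUnity n kk → kk⟦X⟧) (h : ∀ a, Y a * Z a = 1)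
    (hY : ∀ a, constantCoeff (Y a) = ((a : kkˣ) : kk)⁻¹) (d : kk) (T g : KK) (hg : g ≠ 0)
    (hT : T⁻¹ = algebraMap kk⟦X⟧ KK X ^ n * algebraMap kk⟦X⟧ KK (C d))
    (W : List (Lt r)) (hW : FreeGroup.IsCyclicallyReduced W) (hn : W.length = n) :
    LinearIndependent KK
      (fun (j : ZMod n) a => Rn T g (algebraMap kk⟦X⟧ KK (X * Z a)) W j.val) ∧
    LinearIndependent KK
      (fun (j : ZMod n) a => Cn T g (algebraMap kk⟦X⟧ KK (X * Z a)) W j.val) := by
  subst hn
  have hne : W ≠ [] := List.ne_nil_of_length_pos (NeZero.pos _)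
  have hs := pointsb_s
  have ha : ∀ a : rootsOfUnity W.length kk, ((a : kkˣ) : kk) ^ W.length = 1 := fun a =>
    (mem_rootsOfUnity' _ _).1 a.2
  constructor
  · choose P h1 h2 using fun (j : ZMod W.length) a =>
      pointsb_int (Y a) (Z a) (h a) d T g [] W (W.take j.val) hne hT
    have h3 := indep_of_const (-1) (Or.inr rfl) (fun j a => ![1, 1] ᵥ* P j a)
      (fun j => ![1, 1] ᵥ* wp (E kk) (W ++ W.take j.val)) (fun j h0 => by
        have := pair_ne_zero (R := kk) _ (pointsb_red hW j.val).1 (by simp [hne])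
        rw [h0, zero_dotProduct] at this
        exact this rfl) (fun j a b => by
        have h4 : (constantCoeff (R := kk)) ∘ ![1, 1] = ![1, 1] := by
          funext b
          fin_cases b <;> simp
        have h5 := h2 j a
        rw [RingHom.mapMatrix_apply] at h5
        rw [RingHom.map_vecMul, h4, h5, vecMul_smul, hY, List.nil_append, List.length_nil,
          zero_add, List.length_take_of_le (ZMod.val_lt j).le, pow_add, inv_pow, ha, inv_one,
          one_mul, Pi.smul_apply, smul_eq_mul, neg_one_mul, _root_.zpow_neg, zpow_natCast,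
          inv_pow])
      (fun j => g⁻¹ ^ (([] : List (Lt r)).length + (W.take j.val).length) *
        (algebraMap kk⟦X⟧ KK X)⁻¹ ^
          (([] : List (Lt r)).length + W.length + (W.take j.val).length))
      (fun j => mul_ne_zero (pow_ne_zero _ (inv_ne_zero hg)) (pow_ne_zero _ (inv_ne_zero hs)))
    refine (congrArg (fun f : ZMod W.length → rootsOfUnity W.length kk → Fin 2 → KK =>
      LinearIndependent KK f) (funext fun j => funext fun a => funext fun b => ?_)).mp h3
    have h4 : (algebraMap kk⟦X⟧ KK) ∘ ![1, 1] = ![1, 1] := by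
      funext b
      fin_cases b <;> simp
    have h5 := h1 j a
    rw [wp_nil, one_mul] at h5
    rw [Rn, yv, vecMul_vecMul, h5, vecMul_smul, RingHom.map_vecMul, h4]
    rfl
  · choose P h1 h2 using fun (j : ZMod W.length) a =>
      pointsb_int (Y a) (Z a) (h a) d T g (W.drop j.val) W [] hne hT
    have h3 := indep_of_const 1 (Or.inl rfl) (fun j a => P j a *ᵥ ![1, -1])
      (fun j => wp (E kk) (W.drop j.val ++ W) *ᵥ ![1, -1]) (fun j h0 => by
        have := pair_ne_zero (R := kk) _ (pointsb_red hW j.val).2 (by simp [hne])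
        rw [← dotProduct_mulVec, h0, dotProduct_zero] at this
        exact this rfl) (fun j a b => by
        have h4 : (constantCoeff (R := kk)) ∘ ![1, -1] = ![1, -1] := by
          funext b
          fin_cases b <;> simp
        have h5 := h2 j a
        have h6 : ((a : kkˣ) : kk)⁻¹ ^ (W.length - j.val) = ((a : kkˣ) : kk) ^ j.val := by
          rw [inv_pow]
          refine inv_eq_of_mul_eq_one_right ?_
          rw [← pow_add, Nat.sub_add_cancel (ZMod.val_lt j).le, ha]
        rw [RingHom.mapMatrix_apply] at h5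
        rw [RingHom.map_mulVec, h4, h5, smul_mulVec, hY, List.append_nil, List.length_nil,
          add_zero, List.length_drop, pow_add, h6, inv_pow, ha, inv_one, mul_one, one_mul,
          Pi.smul_apply, smul_eq_mul, zpow_natCast])
      (fun j => g⁻¹ ^ ((W.drop j.val).length + ([] : List (Lt r)).length) *
        (algebraMap kk⟦X⟧ KK X)⁻¹ ^
          ((W.drop j.val).length + W.length + ([] : List (Lt r)).length))
      (fun j => mul_ne_zero (pow_ne_zero _ (inv_ne_zero hg)) (pow_ne_zero _ (inv_ne_zero hs)))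
    refine (congrArg (fun f : ZMod W.length → rootsOfUnity W.length kk → Fin 2 → KK =>
      LinearIndependent KK f) (funext fun j => funext fun a => funext fun b => ?_)).mp h3
    have h4 : (algebraMap kk⟦X⟧ KK) ∘ ![1, -1] = ![1, -1] := by
      funext b
      fin_cases b <;> simp
    have h5 := h1 j a
    rw [wp_nil, mul_one] at h5
    rw [Cn, xv, mulVec_mulVec, h5, smul_mulVec, RingHom.map_mulVec, h4]
    rfl

theorem exists_points {n : ℕ} [NeZero n] (W : List (Lt r))
    (hW : FreeGroup.IsCyclicallyReduced W) (hn : W.length = n) :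
    ∃ (T g : KK) (z : rootsOfUnity n kk → KK), T ≠ 0 ∧ T ^ 2 ≠ 1 ∧ g ^ n = T ∧ (∀ a, z a ≠ 0) ∧
      (∀ a, (wp (rho (z a)) W).trace = T + T⁻¹) ∧
      (∀ b, ∃ φ : KK →+* KK, φ T = T ∧ ∀ a, φ (z a) = z (a * b)) ∧
      (∀ x, ∀ k : ℤ, IsCoprime k (orderOf x : ℤ) →
        ∃ φ : KK →+* KK, φ T = T ∧ φ (z 1) = z 1 ∧ φ (z x) = z (x ^ k)) ∧
      (∀ W' : List (Lt r), FreeGroup.IsCyclicallyReduced W' → W'.length = n →
        LinearIndependent KK (fun (j : ZMod n) a => Rn T g (z a) W' j.val) ∧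
        LinearIndependent KK (fun (j : ZMod n) a => Cn T g (z a) W' j.val)) := by
  have hne : W ≠ [] := List.ne_nil_of_length_pos (hn ▸ NeZero.pos n)
  obtain ⟨c₀, Y₀, Z₀, hc₀, hYZ₀, hY₀, htr₀⟩ := exists_root W hW hne
  obtain ⟨c, hc⟩ : ∃ c, c = algebraMap ℚ kk c₀ := ⟨_, rfl⟩
  obtain ⟨Y, hY⟩ : ∃ Y, Y = PowerSeries.map (algebraMap ℚ kk) Y₀ := ⟨_, rfl⟩
  obtain ⟨Z, hZ⟩ : ∃ Z, Z = PowerSeries.map (algebraMap ℚ kk) Z₀ := ⟨_, rfl⟩
  have hc0 : c ≠ 0 := by rw [hc]; exact (map_ne_zero _).2 hc₀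
  have hYZ : Y * Z = 1 := by rw [hY, hZ, ← map_mul, hYZ₀, map_one]
  have hY1 : constantCoeff Y = 1 := by
    rw [hY, ← coeff_zero_eq_constantCoeff_apply, coeff_map, coeff_zero_eq_constantCoeff_apply,
      hY₀, map_one]
  have htr : (wp (fun l => Y • E kk⟦X⟧ l + (X ^ 2 * Z) • E kk⟦X⟧ (iv l)) W).trace
      = C c + X ^ (2 * n) * C c⁻¹ := by
    have h := pointsb_comb (PowerSeries.map (algebraMap ℚ kk)) Y₀ (X ^ 2 * Z₀) W
    rw [htr₀, hn] at h
    simp only [map_add, map_mul, map_pow, map_X, map_C, map_inv₀, ← hc, ← hY, ← hZ] at h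
    exact h.symm
  have hfix : ∀ σ : kk →+* kk, σ c = c ∧ PowerSeries.map σ Z = Z := by
    intro σ
    have h : ∀ q : ℚ, σ (algebraMap ℚ kk q) = algebraMap ℚ kk q := fun q => by simp
    refine ⟨by rw [hc, h], ?_⟩
    ext i
    rw [hZ, coeff_map, coeff_map, h]
  obtain ⟨γ, hγ⟩ := IsAlgClosed.exists_pow_nat_eq c (NeZero.pos n)
  have hs := pointsb_s
  have hC : ∀ a : kk, a ≠ 0 → algebraMap kk⟦X⟧ KK (C a) ≠ 0 := fun a ha =>
    (map_ne_zero_iff _ pointsb_inj).2 ((map_ne_zero C).2 ha)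
  have hCinv : algebraMap kk⟦X⟧ KK (C c⁻¹) = (algebraMap kk⟦X⟧ KK (C c))⁻¹ :=
    map_inv₀ ((algebraMap kk⟦X⟧ KK).comp C) c
  have ha : ∀ a : rootsOfUnity n kk, ((a : kkˣ) : kk) ^ n = 1 := fun a =>
    (mem_rootsOfUnity' _ _).1 a.2
  have hrC : ∀ a b : kk, rescale a (C b) = C b := by
    intro a b
    ext i
    rw [coeff_rescale, coeff_C]
    split_ifs with h <;> simp [h]
  have hz : ∀ a : kk, rescale a (X * Z) = X * (C a * rescale a Z) := by
    intro a
    rw [map_mul, rescale_X]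
    ring
  have hYZa : ∀ a : rootsOfUnity n kk, (C ((a : kkˣ) : kk)⁻¹ * rescale ((a : kkˣ) : kk) Y) *
      (C ((a : kkˣ) : kk) * rescale ((a : kkˣ) : kk) Z) = 1 := by
    intro a
    rw [mul_mul_mul_comm, ← map_mul, ← map_mul, hYZ, inv_mul_cancel₀ (Units.ne_zero _), map_one,
      map_one, one_mul]
  obtain ⟨T, hT⟩ : ∃ T : KK, T = algebraMap kk⟦X⟧ KK (C c) / algebraMap kk⟦X⟧ KK X ^ n := ⟨_, rfl⟩
  have hT0 : T ≠ 0 := by rw [hT]; exact div_ne_zero (hC c hc0) (pow_ne_zero _ hs)
  have hTi : T⁻¹ = algebraMap kk⟦X⟧ KK X ^ n * algebraMap kk⟦X⟧ KK (C c⁻¹) := by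
    rw [hT, hCinv, inv_div, div_eq_mul_inv]
  have hrot : ∀ b : rootsOfUnity n kk, ∃ φ : KK →+* KK, φ T = T ∧ ∀ a : rootsOfUnity n kk,
      φ (algebraMap kk⟦X⟧ KK (rescale ((a : kkˣ) : kk) (X * Z))) =
        algebraMap kk⟦X⟧ KK (rescale (((a * b : rootsOfUnity n kk) : kkˣ) : kk) (X * Z)) := by
    intro b
    obtain ⟨φ, hφ⟩ := pointsb_ext (rescale ((b : kkˣ) : kk)) (rescale_injective (Units.ne_zero _))
    refine ⟨φ, ?_, fun a => ?_⟩
    · rw [hT, map_div₀, map_pow, hφ, hφ, hrC, rescale_X, ← map_pow, mul_pow, ← map_pow, ha,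
        map_one, one_mul, map_pow]
    · rw [hφ, rescale_rescale]
      rfl
  refine ⟨T, algebraMap kk⟦X⟧ KK (C γ) / algebraMap kk⟦X⟧ KK X,
    fun a => algebraMap kk⟦X⟧ KK (rescale ((a : kkˣ) : kk) (X * Z)), hT0, ?_, ?_, ?_, ?_, hrot,
    ?_, ?_⟩
  · intro h
    rw [hT, div_pow, div_eq_one_iff_eq (pow_ne_zero _ (pow_ne_zero _ hs)), ← pow_mul,
      ← map_pow (algebraMap kk⟦X⟧ KK), ← map_pow (algebraMap kk⟦X⟧ KK)] at h
    have h1 := congrArg constantCoeff (pointsb_inj h)
    simp [NeZero.ne n, hc0] at h1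
  · rw [div_pow, ← map_pow, ← map_pow, hγ, hT]
  · intro a
    refine (map_ne_zero_iff _ pointsb_inj).2
      ((map_ne_zero_iff _ (rescale_injective (Units.ne_zero _))).2 (mul_ne_zero X_ne_zero ?_))
    exact right_ne_zero_of_mul_eq_one hYZ
  · intro a
    obtain ⟨φ, h1, h2⟩ := hrot a
    have h3 := congrArg Matrix.trace (scale_rho Y Z hYZ W)
    rw [trace_smul, RingHom.mapMatrix_apply, ← AddMonoidHom.map_trace, htr, hn, smul_eq_mul] at h3
    have h4 : (wp (rho (algebraMap kk⟦X⟧ KK (X * Z))) W).trace = T + T⁻¹ := by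
      refine mul_left_cancel₀ (pow_ne_zero n hs) ?_
      rw [h3, hTi, hT, map_add, map_mul, map_pow, two_mul, pow_add]
      field_simp
    have h5 := h2 1
    rw [one_mul] at h5
    have h6 := pointsb_mapM φ (rho (algebraMap kk⟦X⟧ KK (X * Z))) W
    simp only [rho_map] at h6
    have h7 : rescale (((1 : rootsOfUnity n kk) : kkˣ) : kk) (X * Z) = X * Z := by simp
    rw [h7] at h5
    beta_reduce
    rw [← h5, ← h6, RingHom.mapMatrix_apply, ← AddMonoidHom.map_trace, h4, map_add, map_inv₀, h1]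
  · intro x k hk
    obtain ⟨σ, hσ⟩ := pointsb_gal x k hk
    obtain ⟨φ, hφ⟩ := pointsb_ext (PowerSeries.map σ) (PowerSeries.map_injective σ σ.injective)
    obtain ⟨h1, h2⟩ := hfix σ
    have h3 : ∀ a : kk, PowerSeries.map σ (rescale a (X * Z)) = rescale (σ a) (X * Z) := by
      intro a
      rw [← rescale_map, map_mul, map_X, h2]
    refine ⟨φ, ?_, ?_, ?_⟩
    · rw [hT, map_div₀, map_pow, hφ, hφ, map_C, map_X, h1]
    · rw [hφ, h3]
      simp
    · rw [hφ, h3, hσ]
  · intro W' hW' hn'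
    simp only [hz]
    refine pointsb_indep _ _ hYZa (fun a => ?_) c⁻¹ T _ (div_ne_zero (hC γ ?_) hs) hTi W' hW' hn'
    · rw [map_mul, constantCoeff_C, ← coeff_zero_eq_constantCoeff_apply, coeff_rescale,
        coeff_zero_eq_constantCoeff_apply, hY1]
      simp
    · rintro rfl
      rw [zero_pow (NeZero.ne n)] at hγ
      exact hc0 hγ.symm

end Pool.Agent.Work.MP_c2f093_al.PA
end

-- merged part: Pool.Agent.Work.MP_c2f093_al.PA.TransferA
section
/-!
From trace equivalence in `SL(n,ℂ)` to trace equivalence in all complex representations of size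
at most `n`.

PLAN. (a) for `card ι ≤ n` and `ρ : F →* Matrix ι ι ℂ` with all determinants one, pad by the
identity (`fromBlocks ρ 0 0 1` on `ι ⊕ Fin (n - card ι)`, `reindex` to `Fin n`; a hom into `SL`
is `FreeGroup.lift` of its values on generators).
(b) for a character `χ : F →* ℂˣ` use `diagonal ![χ, χ, χ⁻¹ ^ 2]` for `χ` and `χ⁻¹`: with
`a = χ u`, `b = χ w` the cubics `(X-a)^2 (X-a⁻²)` and `(X-b)^2 (X-b⁻²)` agree, so `a = b`.
(c) for general `ρ` and nonempty `ι` choose `lam i` with `lam i ^ card ι = det (ρ (of i))`,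
`χ = lift lam`, and apply (a) to `g ↦ (χ g)⁻¹ • ρ g`.
-/

namespace Pool.Agent.Work.MP_c2f093_al.PA

open Matrix

variable {r : ℕ}

/-- equality of traces in all complex representations of size `ι` -/
def TE (ι : Type) [Fintype ι] [DecidableEq ι] (u w : FreeGroup (Fin r)) : Prop :=
  ∀ ρ : FreeGroup (Fin r) →* Matrix ι ι ℂ, (ρ u).trace = (ρ w).trace

lemma transfera_pad {n : ℕ} {u w : FreeGroup (Fin r)}
    (h : ∀ A : Fin r → SpecialLinearGroup (Fin n) ℂ,
      ((FreeGroup.lift A u : SpecialLinearGroup (Fin n) ℂ) : Matrix (Fin n) (Fin n) ℂ).trace =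
      ((FreeGroup.lift A w : SpecialLinearGroup (Fin n) ℂ) : Matrix (Fin n) (Fin n) ℂ).trace)
    {ι : Type} [Fintype ι] [DecidableEq ι] (hι : Fintype.card ι ≤ n)
    (ρ : FreeGroup (Fin r) →* Matrix ι ι ℂ) (hρ : ∀ g, (ρ g).det = 1) :
    (ρ u).trace = (ρ w).trace := by
  let e : ι ⊕ Fin (n - Fintype.card ι) ≃ Fin n := Fintype.equivFinOfCardEq (by
    rw [Fintype.card_sum, Fintype.card_fin]
    omega)
  let σ : FreeGroup (Fin r) →* SpecialLinearGroup (Fin n) ℂ := MonoidHom.mk'
    (fun g => ⟨reindex e e (fromBlocks (ρ g) 0 0 1), by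
      rw [det_reindex_self, det_fromBlocks_zero₂₁, hρ, det_one, one_mul]⟩)
    fun g g' => Subtype.ext (by
      change reindex e e _ = reindex e e _ * reindex e e _
      simp only [reindex_apply, submatrix_mul_equiv, fromBlocks_multiply, map_mul, Matrix.mul_zero,
        Matrix.zero_mul, add_zero, zero_add, Matrix.mul_one])
  have h1 : FreeGroup.lift (fun i => σ (FreeGroup.of i)) = σ :=
    FreeGroup.ext_hom _ _ fun i => FreeGroup.lift_apply_of
  have h2 : ∀ g, ((σ g : SpecialLinearGroup (Fin n) ℂ) : Matrix (Fin n) (Fin n) ℂ).trace =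
      (ρ g).trace + (n - Fintype.card ι : ℕ) := by
    intro g
    change ∑ i, (fromBlocks (ρ g) 0 0 1) (e.symm i) (e.symm i) = _
    rw [e.symm.sum_comp fun x => (fromBlocks (ρ g) 0 0 1 : Matrix _ _ ℂ) x x,
      Fintype.sum_sum_type]
    simp [trace]
  have h3 := h fun i => σ (FreeGroup.of i)
  rw [h1, h2, h2] at h3
  exact add_right_cancel h3

lemma transfera_char {n : ℕ} (hn : 3 ≤ n) {u w : FreeGroup (Fin r)}
    (h : ∀ A : Fin r → SpecialLinearGroup (Fin n) ℂ,
      ((FreeGroup.lift A u : SpecialLinearGroup (Fin n) ℂ) : Matrix (Fin n) (Fin n) ℂ).trace =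
      ((FreeGroup.lift A w : SpecialLinearGroup (Fin n) ℂ) : Matrix (Fin n) (Fin n) ℂ).trace)
    (χ : FreeGroup (Fin r) →* ℂˣ) : χ u = χ w := by
  have key : ∀ a a' : FreeGroup (Fin r) →* ℂ, (∀ g, a g * a' g = 1) →
      2 * a u + a' u ^ 2 = 2 * a w + a' w ^ 2 := by
    intro a a' ha
    let ρ : FreeGroup (Fin r) →* Matrix (Fin 3) (Fin 3) ℂ :=
      { toFun := fun g => diagonal ![a g, a g, a' g ^ 2]
        map_one' := by
          rw [← diagonal_one]
          congr 1
          funext i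
          fin_cases i <;> simp
        map_mul' := fun g g' => by
          rw [diagonal_mul_diagonal]
          congr 1
          funext i
          fin_cases i <;> simp [mul_pow] }
    have h1 := transfera_pad h (ι := Fin 3) (by simpa using hn) ρ fun g => by
      change (diagonal ![a g, a g, a' g ^ 2]).det = 1
      rw [det_diagonal, Fin.prod_univ_three]
      change a g * a g * a' g ^ 2 = 1
      linear_combination (a g * a' g + 1) * ha g
    change (diagonal ![a u, a u, a' u ^ 2]).trace = (diagonal ![a w, a w, a' w ^ 2]).trace at h1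
    rw [trace_diagonal, trace_diagonal, Fin.sum_univ_three, Fin.sum_univ_three] at h1
    change a u + a u + a' u ^ 2 = a w + a w + a' w ^ 2 at h1
    linear_combination h1
  let c : FreeGroup (Fin r) →* ℂ := (Units.coeHom ℂ).comp χ
  let c' : FreeGroup (Fin r) →* ℂ := (Units.coeHom ℂ).comp χ⁻¹
  have hc : ∀ g, c g * c' g = 1 := fun g => (χ g).mul_inv
  have e1 := key c c' hc
  have e2 := key c' c fun g => by rw [mul_comm, hc]
  have ha := hc u
  have hb := hc w
  refine Units.ext (show c u = c w from ?_)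
  generalize c u = a, c' u = a', c w = b, c' w = b' at *
  have p0 : (b - a) ^ 2 * (b - a' ^ 2) = 0 := by
    linear_combination (-b ^ 2) * e1 + b * e2 + (2 * a' * b - (a * a' + 1)) * ha -
      (2 * b' * b - (b * b' + 1)) * hb
  have p1 : 2 * (b - a) * (b - a' ^ 2) + (b - a) ^ 2 = 0 := by
    linear_combination (-2 * b) * e1 + e2 + 2 * a' * ha - 2 * b' * hb
  have p2 : (b - a) ^ 3 = 0 := by linear_combination (b - a) * p1 - 2 * p0
  exact (sub_eq_zero.1 (pow_eq_zero_iff three_ne_zero |>.1 p2)).symm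

theorem te_of_sl {n : ℕ} (hn : 3 ≤ n) {u w : FreeGroup (Fin r)}
    (h : ∀ A : Fin r → SpecialLinearGroup (Fin n) ℂ,
      ((FreeGroup.lift A u : SpecialLinearGroup (Fin n) ℂ) : Matrix (Fin n) (Fin n) ℂ).trace =
      ((FreeGroup.lift A w : SpecialLinearGroup (Fin n) ℂ) : Matrix (Fin n) (Fin n) ℂ).trace)
    (ι : Type) [Fintype ι] [DecidableEq ι] (hι : Fintype.card ι ≤ n) : TE ι u w := by
  intro ρ
  rcases isEmpty_or_nonempty ι with hE | hE
  · simp [trace]
  have hd : ∀ g, (ρ g).det ≠ 0 := fun g =>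
    left_ne_zero_of_mul_eq_one (b := (ρ g⁻¹).det) (by
      rw [← det_mul, ← map_mul, mul_inv_cancel, map_one, det_one])
  choose lam hlam using fun i : Fin r =>
    IsAlgClosed.exists_pow_nat_eq (ρ (FreeGroup.of i)).det (Fintype.card_pos (α := ι))
  have h0 : ∀ i, lam i ≠ 0 := fun i e =>
    hd _ (by rw [← hlam i, e, zero_pow Fintype.card_ne_zero])
  let χ : FreeGroup (Fin r) →* ℂˣ := FreeGroup.lift fun i => (Units.mk0 (lam i) (h0 i))⁻¹
  let ρ' : FreeGroup (Fin r) →* Matrix ι ι ℂ :=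
    { toFun := fun g => (χ g : ℂ) • ρ g
      map_one' := by simp
      map_mul' := fun g g' => by
        simp only [map_mul, Units.val_mul, smul_mul_assoc, mul_smul_comm, smul_smul, mul_comm] }
  have h1 : (detMonoidHom.comp ρ' : FreeGroup (Fin r) →* ℂ) = 1 :=
    FreeGroup.ext_hom _ _ fun i => by
      change ((χ (FreeGroup.of i) : ℂ) • ρ (FreeGroup.of i)).det = 1
      rw [det_smul, ← hlam i, ← mul_pow, FreeGroup.lift_apply_of, Units.val_inv_eq_inv_val,
        Units.val_mk0, inv_mul_cancel₀ (h0 i), one_pow]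
  have h2 := transfera_pad h hι ρ' fun g => DFunLike.congr_fun h1 g
  change ((χ u : ℂ) • ρ u).trace = ((χ w : ℂ) • ρ w).trace at h2
  rw [trace_smul, trace_smul, transfera_char hn h χ, smul_eq_mul, smul_eq_mul] at h2
  exact mul_left_cancel₀ (χ w).ne_zero h2

end Pool.Agent.Work.MP_c2f093_al.PA
end

-- merged part: Pool.Agent.Work.MP_c2f093_al.PA.TransferB
section
/-!
Equality of characteristic polynomials of all representations of size at most 12 over every
commutative ring.

PLAN `deq_complex`: reindex to `Fin N`, `N ≤ 12`; `M ↦ LinearMap.toMatrix b b (exteriorPower.map k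
(toLin' M))` with `b = (Pi.basisFun ℂ (Fin N)).exteriorPower k` is a monoid hom of size
`N.choose k ≤ 924`, its trace is the sum of the principal `k × k` minors
(`exteriorPower.basis_repr_apply`, `ιMultiDual_apply_ιMulti`), then
`Matrix.charpoly_coeff_eq_sum_minors` gives equal `charpoly`, evaluate (`Matrix.eval_charpoly`).
PLAN `deq_transfer`: `P = MvPolynomial (Option (Fin r × ι × ι)) ℤ`, `d = ∏ i, det (generic i)`,
`Q = Localization.Away d`, universal representation over `Q`; the universal difference is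
`mk' p (d ^ m)`; `p * d` vanishes at all complex points (`MvPolynomial.funext`), so it is zero;
specialise by `IsLocalization.Away.lift`.
-/

namespace Pool.Agent.Work.MP_c2f093_al.PA

open Matrix

variable {r : ℕ}

lemma transferb_ext (ι : Type) [Fintype ι] [DecidableEq ι] (k : ℕ) :
    ∃ φ : Matrix ι ι ℂ →* Matrix (Set.powersetCard ι k) (Set.powersetCard ι k) ℂ, ∀ M,
      (φ M).trace = ∑ s ∈ Finset.univ.powersetCard k,
        (M.submatrix (Subtype.val : s → ι) (Subtype.val : s → ι)).det := by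
  let _ : LinearOrder ι := LinearOrder.lift' (Fintype.equivFin ι) (Equiv.injective _)
  let b := (Pi.basisFun ℂ ι).exteriorPower k
  refine ⟨⟨⟨fun M => LinearMap.toMatrix b b (exteriorPower.map k (toLin' M)), ?_⟩,
    fun M N => ?_⟩, fun M => ?_⟩
  · rw [toLin'_one, exteriorPower.map_id, LinearMap.toMatrix_id]
  · dsimp only
    rw [toLin'_mul, exteriorPower.map_comp, LinearMap.toMatrix_comp b b b]
  · rw [Finset.sum_subtype (p := fun s => s ∈ Set.powersetCard ι k) (F := inferInstance) _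
      (fun s => by simp [Finset.mem_powersetCard])]
    refine Finset.sum_congr rfl fun s _ => ?_
    change LinearMap.toMatrix b b (exteriorPower.map k (toLin' M)) s s = _
    rw [LinearMap.toMatrix_apply, exteriorPower.basis_repr_apply, exteriorPower.basis_apply,
      exteriorPower.ιMulti_family, exteriorPower.map_apply_ιMulti,
      exteriorPower.ιMultiDual_apply_ιMulti, ← det_transpose,
      ← det_submatrix_equiv_self (s.1.orderIsoOfFin s.2).toEquiv]
    congr 1
    ext i j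
    simp [Set.powersetCard.ofFinEmbEquiv_symm_apply]

theorem deq_complex {u w : FreeGroup (Fin r)}
    (h : ∀ (ι : Type) [Fintype ι] [DecidableEq ι], Fintype.card ι ≤ 924 → TE ι u w)
    (ι : Type) [Fintype ι] [DecidableEq ι] (hι : Fintype.card ι ≤ 12) : DEq ι ℂ u w := by
  intro ρ lam
  have h1 : ∀ k, ∑ s ∈ Finset.univ.powersetCard k,
        ((ρ u).submatrix (Subtype.val : s → ι) (Subtype.val : s → ι)).det =
      ∑ s ∈ Finset.univ.powersetCard k,
        ((ρ w).submatrix (Subtype.val : s → ι) (Subtype.val : s → ι)).det := fun k => by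
    obtain ⟨φ, hφ⟩ := transferb_ext ι k
    rw [← hφ, ← hφ]
    refine h _ ?_ (φ.comp ρ)
    rw [Fintype.card_eq_nat_card, Set.powersetCard.card, Nat.card_eq_fintype_card]
    exact (Nat.choose_le_choose k hι).trans ((Nat.choose_le_middle k 12).trans (by decide))
  have h2 : (ρ u).charpoly = (ρ w).charpoly := by
    ext j
    by_cases hj : j ≤ Fintype.card ι
    · rw [← Nat.sub_sub_self hj, charpoly_coeff_eq_sum_minors _ _ (Nat.sub_le _ _),
        charpoly_coeff_eq_sum_minors _ _ (Nat.sub_le _ _), h1]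
    · rw [Polynomial.coeff_eq_zero_of_natDegree_lt, Polynomial.coeff_eq_zero_of_natDegree_lt] <;>
        rw [charpoly_natDegree_eq_dim] <;> omega
  have h3 := congrArg (Polynomial.eval lam) h2
  rw [eval_charpoly, eval_charpoly, scalar_apply, ← smul_one_eq_diagonal] at h3
  rw [← neg_sub, ← neg_sub (lam • _), det_neg, det_neg, h3]

section universal
variable {ι : Type} [Fintype ι] [DecidableEq ι] {R : Type} [CommRing R]

/-- a letter with its denominator cleared -/
def transferbA (G : Fin r → Matrix ι ι R) (l : Lt r) : Matrix ι ι R :=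
  if l.2 then G l.1 else (G l.1).adjugate

/-- the denominator of a letter -/
def transferbD (G : Fin r → Matrix ι ι R) (l : Lt r) : R := if l.2 then 1 else (G l.1).det

/-- the determinant with all denominators cleared -/
def transferbT (G : Fin r → Matrix ι ι R) (lam : R) (W W' : List (Lt r)) : R :=
  (∏ i, (G i).det) * (wp (transferbD G) W' ^ Fintype.card ι *
    (wp (transferbA G) W - (lam * wp (transferbD G) W) • (1 : Matrix ι ι R)).det)

lemma transferb_map {R' : Type} [CommRing R'] (φ : R →+* R') (G : Fin r → Matrix ι ι R) (lam : R)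
    (W W' : List (Lt r)) : φ (transferbT G lam W W') =
      transferbT (fun i => φ.mapMatrix (G i)) (φ lam) W W' := by
  have h1 : ∀ W, φ (wp (transferbD G) W) = wp (transferbD fun i => φ.mapMatrix (G i)) W :=
    fun W => (wp_map φ.toMonoidHom _ W).trans (congrArg (wp · W) (funext fun l => by
      unfold transferbD
      split_ifs
      · exact map_one _
      · exact φ.map_det _))
  have h2 : φ.mapMatrix (wp (transferbA G) W) = wp (transferbA fun i => φ.mapMatrix (G i)) W :=
    (wp_map (φ.mapMatrix (m := ι)).toMonoidHom _ W).trans (congrArg (wp · W) (funext fun l => by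
      unfold transferbA
      split_ifs
      · rfl
      · exact φ.map_adjugate _))
  unfold transferbT
  rw [map_mul, map_mul, map_pow, map_prod, h1, φ.map_det, map_sub, h2, ← h1 W, ← map_mul]
  congr 4
  · exact funext fun i => φ.map_det _
  · ext a b
    by_cases h : a = b <;> simp [h]

lemma transferb_wp (ρ : FreeGroup (Fin r) →* Matrix ι ι R) (W : List (Lt r)) :
    wp (transferbA fun i => ρ (FreeGroup.of i)) W =
      wp (transferbD fun i => ρ (FreeGroup.of i)) W • ρ (FreeGroup.mk W) := by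
  induction W with
  | nil => simp [← FreeGroup.one_eq_mk]
  | cons l W ih =>
    have h : transferbA (fun i => ρ (FreeGroup.of i)) l =
        transferbD (fun i => ρ (FreeGroup.of i)) l • ρ (FreeGroup.mk [l]) := by
      obtain ⟨i, s⟩ := l
      cases s
      · change (ρ (FreeGroup.of i)).adjugate = (ρ (FreeGroup.of i)).det • ρ (FreeGroup.of i)⁻¹
        rw [← mul_one (ρ (FreeGroup.of i)).adjugate, ← map_one ρ,
          ← mul_inv_cancel (FreeGroup.of i), map_mul, ← mul_assoc, adjugate_mul, smul_mul_assoc,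
          one_mul]
      · exact (one_smul _ _).symm
    rw [wp_cons, wp_cons, ih, h, smul_mul_smul_comm, ← map_mul, FreeGroup.mul_mk]
    rfl

lemma transferb_eq (ρ : FreeGroup (Fin r) →* Matrix ι ι R) (lam : R) (W W' : List (Lt r)) :
    transferbT (fun i => ρ (FreeGroup.of i)) lam W W' = (∏ i, (ρ (FreeGroup.of i)).det) *
      (wp (transferbD fun i => ρ (FreeGroup.of i)) W *
        wp (transferbD fun i => ρ (FreeGroup.of i)) W') ^ Fintype.card ι *
      (ρ (FreeGroup.mk W) - lam • (1 : Matrix ι ι R)).det := by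
  unfold transferbT
  rw [transferb_wp, mul_comm lam, mul_smul, ← smul_sub, det_smul]
  ring

lemma transferb_unit (ρ : FreeGroup (Fin r) →* Matrix ι ι R) (i : Fin r) :
    IsUnit (ρ (FreeGroup.of i)).det :=
  (isUnit_iff_isUnit_det _).1 ((Group.isUnit _).map ρ)

lemma transferb_unit_wp (ρ : FreeGroup (Fin r) →* Matrix ι ι R) (W : List (Lt r)) :
    IsUnit (wp (transferbD fun i => ρ (FreeGroup.of i)) W) := by
  induction W with
  | nil => exact isUnit_one
  | cons l W ih =>
    rw [wp_cons]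
    refine IsUnit.mul ?_ ih
    unfold transferbD
    split_ifs
    · exact isUnit_one
    · exact transferb_unit ρ _

lemma transferb_complex {W W' : List (Lt r)} (h : DEq ι ℂ (FreeGroup.mk W) (FreeGroup.mk W'))
    (G : Fin r → Matrix ι ι ℂ) (lam : ℂ) : transferbT G lam W W' = transferbT G lam W' W := by
  by_cases hG : ∏ i, (G i).det = 0
  · unfold transferbT
    rw [hG, zero_mul, zero_mul]
  · have h1 : ∀ i, IsUnit (G i) := fun i => (isUnit_iff_isUnit_det _).2
      (Ne.isUnit (Finset.prod_ne_zero_iff.1 hG i (Finset.mem_univ _)))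
    have h2 : G = fun i => (Units.coeHom _).comp (FreeGroup.lift fun i => (h1 i).unit)
        (FreeGroup.of i) := funext fun i => by simp
    rw [h2, transferb_eq, transferb_eq, h, mul_comm (wp _ W)]

end universal

theorem deq_transfer {u w : FreeGroup (Fin r)} {ι : Type} [Fintype ι] [DecidableEq ι]
    (h : DEq ι ℂ u w) (S : Type) [CommRing S] : DEq ι S u w := by
  intro ρ lam
  obtain ⟨W, rfl⟩ : ∃ W, FreeGroup.mk W = u := ⟨_, FreeGroup.mk_toWord⟩
  obtain ⟨W', rfl⟩ : ∃ W, FreeGroup.mk W = w := ⟨_, FreeGroup.mk_toWord⟩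
  let G : Fin r → Matrix ι ι (MvPolynomial (Option (Fin r × ι × ι)) ℤ) :=
    fun i a b => MvPolynomial.X (some (i, a, b))
  have h1 : transferbT G (MvPolynomial.X none) W W' = transferbT G (MvPolynomial.X none) W' W := by
    refine MvPolynomial.map_injective (Int.castRingHom ℂ) Int.cast_injective
      (MvPolynomial.funext fun x => ?_)
    have h2 := transferb_map ((MvPolynomial.eval x).comp (MvPolynomial.map (Int.castRingHom ℂ)))
      G (MvPolynomial.X none)
    exact (h2 W W').trans ((transferb_complex h _ _).trans (h2 W' W).symm)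
  let φ := MvPolynomial.eval₂Hom (Int.castRingHom S) fun o : Option (Fin r × ι × ι) =>
    o.elim lam fun y => ρ (FreeGroup.of y.1) y.2.1 y.2.2
  have h3 : (fun i => φ.mapMatrix (G i)) = fun i => ρ (FreeGroup.of i) := by
    funext i
    ext a b
    exact MvPolynomial.eval₂Hom_X' _ _ _
  have h4 : φ (MvPolynomial.X none) = lam := MvPolynomial.eval₂Hom_X' _ _ _
  have h5 := congrArg φ h1
  rw [transferb_map, transferb_map, h3, h4, transferb_eq, transferb_eq, mul_comm (wp _ W')] at h5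
  exact ((IsUnit.prod_univ_iff.2 (transferb_unit ρ)).mul
    (((transferb_unit_wp ρ W).mul (transferb_unit_wp ρ W')).pow _)).mul_left_cancel h5

theorem deq_of_sl {n : ℕ} (hn : 924 ≤ n) {u w : FreeGroup (Fin r)}
    (h : ∀ A : Fin r → SpecialLinearGroup (Fin n) ℂ,
      ((FreeGroup.lift A u : SpecialLinearGroup (Fin n) ℂ) : Matrix (Fin n) (Fin n) ℂ).trace =
      ((FreeGroup.lift A w : SpecialLinearGroup (Fin n) ℂ) : Matrix (Fin n) (Fin n) ℂ).trace)
    (ι : Type) [Fintype ι] [DecidableEq ι] (hι : Fintype.card ι ≤ 12) (S : Type) [CommRing S] :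
    DEq ι S u w :=
  deq_transfer (deq_complex (fun κ _ _ hκ => te_of_sl (by omega) h κ (by omega)) ι hι) S

end Pool.Agent.Work.MP_c2f093_al.PA
end

-- merged part: Pool.Agent.Work.MP_c2f093_al.PA.Glue
section
/-!
Assembly: trace equivalence in `SL(n,ℂ)`, `n ≥ 924`, implies conjugacy.
-/

namespace Pool.Agent.Work.MP_c2f093_al.PA

open Matrix

variable {r : ℕ}

section closed
variable {K : Type} [Field K]

lemma dv_smul (c : K) (ρ ρ' : Lt r → M2 K) (N : Fin r → M2 K) (W : List (Lt r)) :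
    dv (fun l => c • ρ l) (fun l => c • ρ' l) N W = c ^ W.length • dv ρ ρ' N W := by
  induction W with
  | nil => simp [dv]
  | cons l W ih =>
    have h : dl (fun l => c • ρ l) (fun l => c • ρ' l) N l = c • dl ρ ρ' N l := by
      unfold dl
      split_ifs <;> simp
    rw [dv, dv, ih, h, wp_smul, List.length_cons, smul_add, smul_mul_smul_comm,
      smul_mul_smul_comm, pow_succ']

lemma dv_sum (ρ ρ' : Lt r → M2 K) (N : Fin r → M2 K) (W : List (Lt r)) :
    dv ρ ρ' N W = ∑ j : Fin W.length,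
      wp ρ (W.take j) * dl ρ ρ' N W[j.val] * wp ρ' (W.drop (j + 1)) := by
  induction W with
  | nil => simp [dv]
  | cons l W ih =>
    rw [dv, ih]
    simp only [List.length_cons, Fin.sum_univ_succ, Finset.mul_sum]
    simp [mul_assoc]

lemma per_val {α : Type} {n : ℕ} [NeZero n] (f : ℕ → α) (h : f n = f 0) (j : ZMod n) :
    f (j + 1).val = f (j.val + 1) := by
  rw [ZMod.val_add, ZMod.val_one_eq_one_mod, Nat.add_mod_mod]
  rcases (Nat.succ_le_of_lt (ZMod.val_lt j)).lt_or_eq with h1 | h1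
  · rw [Nat.mod_eq_of_lt h1]
  · rw [show j.val + 1 = n from h1, Nat.mod_self, h]

/-- the letters of a word, indexed cyclically -/
def lt {n : ℕ} [NeZero n] (W : List (Lt r)) (hn : W.length = n) (j : ZMod n) : Lt r :=
  W[j.val]'(hn ▸ ZMod.val_lt j)

variable {T g z z' : K} {W : List (Lt r)}

lemma rn_succ (j : ℕ) (hj : j < W.length) :
    Rn T g z W (j + 1) = Rn T g z W j ᵥ* (g⁻¹ • rho z W[j]) := by
  rw [Rn, Rn, vecMul_vecMul, List.take_succ_eq_append_getElem hj, wp_append, wp_cons, wp_nil,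
    mul_one]

lemma cn_succ (j : ℕ) (hj : j < W.length) :
    Cn T g z W j = (g⁻¹ • rho z W[j]) *ᵥ Cn T g z W (j + 1) := by
  rw [Cn, Cn, mulVec_mulVec, List.drop_eq_getElem_cons hj, wp_cons]

lemma rn_zero : Rn T g z W 0 = yv T z W := by simp [Rn]

lemma cn_len : Cn T g z W W.length = xv T z W := by simp [Cn]

lemma rn_len (hT : T ≠ 0) (hz : z ≠ 0) (hg : g ^ W.length = T)
    (h : (wp (rho z) W).trace = T + T⁻¹) : Rn T g z W W.length = Rn T g z W 0 := by
  rw [rn_zero, Rn, List.take_length, wp_smul, vecMul_smul, yv_eig hT hz h, smul_smul, inv_pow, hg,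
    inv_mul_cancel₀ hT, one_smul]

lemma cn_zero (hT : T ≠ 0) (hz : z ≠ 0) (hg : g ^ W.length = T)
    (h : (wp (rho z) W).trace = T + T⁻¹) : Cn T g z W W.length = Cn T g z W 0 := by
  rw [cn_len, Cn, List.drop_zero, wp_smul, smul_mulVec, xv_eig hT hz h, smul_smul, inv_pow, hg,
    inv_mul_cancel₀ hT, one_smul]

lemma single_pair (y x : Fin 2 → K) (τ i : Fin r) (a b : Fin 2) :
    (y ᵥ* (Pi.single τ (Matrix.single a b (1 : K)) : Fin r → M2 K) i) ⬝ᵥ x =
      if i = τ then y a * x b else 0 := by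
  split_ifs with h
  · subst h
    rw [Pi.single_eq_same]
    fin_cases a <;> fin_cases b <;>
      simp [vecMul, dotProduct, Fin.sum_univ_two, Matrix.single_apply]
  · rw [Pi.single_eq_of_ne h]
    simp

lemma closed_form {V : Type} {n : ℕ} [NeZero n] (hn : W.length = n) (zz : V → K) (hT : T ≠ 0)
    (hz : ∀ v, zz v ≠ 0) (hg : g ^ n = T) (h : ∀ v, (wp (rho (zz v)) W).trace = T + T⁻¹)
    (τ : Fin r) (v v' : V) (a b : Fin 2) :
    (yv T (zz v) W ᵥ* dv (rho (zz v)) (rho (zz v')) (Pi.single τ (Matrix.single a b 1)) W) ⬝ᵥ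
        xv T (zz v') W =
      T * ∑ j, th (lt W hn) (fun (j : ZMod n) v => Rn T g (zz v) W j.val)
        (fun (j : ZMod n) v => Cn T g (zz v) W j.val) τ v v' a b j := by
  subst hn
  have h1 := dv_smul g⁻¹ (rho (zz v)) (rho (zz v')) (Pi.single τ (Matrix.single a b 1)) W
  rw [inv_pow, hg] at h1
  have h2 : dv (rho (zz v)) (rho (zz v')) (Pi.single τ (Matrix.single a b 1)) W =
      T • dv (fun l => g⁻¹ • rho (zz v) l) (fun l => g⁻¹ • rho (zz v') l)
        (Pi.single τ (Matrix.single a b 1)) W := by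
    rw [h1, smul_smul, mul_inv_cancel₀ hT, one_smul]
  rw [h2, vecMul_smul, smul_dotProduct, smul_eq_mul, dv_sum, vecMul_sum, sum_dotProduct]
  congr 1
  let e : ZMod W.length ≃ Fin W.length :=
    ⟨fun j => ⟨j.val, ZMod.val_lt j⟩, fun i => (i.val : ZMod W.length),
      fun j => ZMod.natCast_zmod_val j, fun i => Fin.ext (ZMod.val_cast_of_lt i.2)⟩
  refine (Fintype.sum_equiv e _ _ fun j => ?_).symm
  have hj := ZMod.val_lt j
  have e1 := per_val (Rn T g (zz v) W) (rn_len hT (hz v) hg (h v)) j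
  have e2 := per_val (Cn T g (zz v') W) (cn_zero hT (hz v') hg (h v')) j
  have e3 : ∀ M : M2 K, (yv T (zz v) W ᵥ* (wp (fun l => g⁻¹ • rho (zz v) l) (W.take j.val) * M *
      wp (fun l => g⁻¹ • rho (zz v') l) (W.drop (j.val + 1)))) ⬝ᵥ xv T (zz v') W =
      (Rn T g (zz v) W j.val ᵥ* M) ⬝ᵥ Cn T g (zz v') W (j.val + 1) := by
    intro M
    rw [Rn, Cn, dotProduct_mulVec, vecMul_vecMul, vecMul_vecMul, mul_assoc]
  change _ = (yv T (zz v) W ᵥ* (wp (fun l => g⁻¹ • rho (zz v) l) (W.take j.val) *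
      dl _ _ _ (lt W rfl j) * wp (fun l => g⁻¹ • rho (zz v') l) (W.drop (j.val + 1)))) ⬝ᵥ _
  rw [e3, th, dl]
  simp only [e1, e2]
  by_cases hs : (lt W rfl j).2 = true
  · simp only [hs, if_true]
    rw [← vecMul_vecMul, single_pair, rn_succ j.val hj]
    rfl
  · simp only [hs, Bool.false_eq_true, if_false]
    rw [vecMul_neg, neg_dotProduct, ← vecMul_vecMul, ← dotProduct_mulVec, single_pair,
      cn_succ j.val hj]
    split_ifs
    · rfl
    · simp

lemma lt_succ_ne {n : ℕ} [NeZero n] (hW : FreeGroup.IsCyclicallyReduced W) (hn : W.length = n)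
    (j : ZMod n) : lt W hn (j + 1) ≠ iv (lt W hn j) := by
  subst hn
  rw [ne_iv_iff]
  have hj := ZMod.val_lt j
  have h0 : (j + 1).val = (j.val + 1) % W.length := by
    rw [ZMod.val_add, ZMod.val_one_eq_one_mod, Nat.add_mod_mod]
  unfold lt
  rcases (Nat.succ_le_of_lt hj).lt_or_eq with h1 | h1
  · rw [Nat.mod_eq_of_lt h1] at h0
    simp only [h0]
    exact List.isChain_iff_getElem.1 hW.1 j.val (by omega)
  · rw [show j.val + 1 = W.length from h1, Nat.mod_self] at h0
    simp only [h0]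
    refine hW.2 _ ?_ _ ?_
    · rw [Option.mem_def, List.getLast?_eq_getElem?, List.getElem?_eq_getElem (by omega)]
      congr 2
      omega
    · rw [Option.mem_def, List.head?_eq_getElem?, List.getElem?_eq_getElem (by omega)]

end closed

theorem rotation_of_points {K G : Type} [Field K] [CommGroup G] [Finite G] [IsCyclic G]
    {n : ℕ} [NeZero n] (Wu Ww : List (Lt r)) (hu : FreeGroup.IsCyclicallyReduced Wu)
    (hw : FreeGroup.IsCyclicallyReduced Ww) (hnu : Wu.length = n) (hnw : Ww.length = n)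
    (hD : ∀ L ≤ 6, DEq (Fin 2 × Fin L) (PowerSeries K) (FreeGroup.mk Wu) (FreeGroup.mk Ww))
    (T g : K) (z : G → K) (hT : T ≠ 0) (hT2 : T ^ 2 ≠ 1) (hg : g ^ n = T) (hz : ∀ a, z a ≠ 0)
    (htu : ∀ a, (wp (rho (z a)) Wu).trace = T + T⁻¹)
    (htw : ∀ a, (wp (rho (z a)) Ww).trace = T + T⁻¹)
    (hrot : ∀ b, ∃ φ : K →+* K, φ T = T ∧ ∀ a, φ (z a) = z (a * b))
    (hgal : ∀ x, ∀ k : ℤ, IsCoprime k (orderOf x : ℤ) →
      ∃ φ : K →+* K, φ T = T ∧ φ (z 1) = z 1 ∧ φ (z x) = z (x ^ k))
    (hi : ∀ W : List (Lt r), FreeGroup.IsCyclicallyReduced W → W.length = n →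
      LinearIndependent K (fun (j : ZMod n) a => Rn T g (z a) W j.val) ∧
      LinearIndependent K (fun (j : ZMod n) a => Cn T g (z a) W j.val)) :
    ∃ j₀ : ZMod n, ∀ i, lt Ww hnw i = lt Wu hnu (j₀ + i) := by
  have hκ : T⁻¹ - T ≠ 0 := by
    intro h
    apply hT2
    have h1 : T⁻¹ = T := sub_eq_zero.1 h
    rw [pow_two]
    nth_rewrite 1 [← h1]
    exact inv_mul_cancel₀ hT
  have hg0 : g ≠ 0 := by
    rintro rfl
    rw [zero_pow (NeZero.ne n)] at hg
    exact hT hg.symm
  have hd : ∀ W : List (Lt r), FreeGroup.IsCyclicallyReduced W → W.length = n →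
      (∀ a, (wp (rho (z a)) W).trace = T + T⁻¹) → ∀ a, yv T (z a) W ⬝ᵥ xv T (z a) W ≠ 0 := by
    intro W hW hn ht a
    obtain ⟨h1, h2⟩ := hi W hW hn
    obtain ⟨a1, ha1⟩ := Function.ne_iff.1 (h1.ne_zero 0)
    obtain ⟨a2, ha2⟩ := Function.ne_iff.1 (h2.ne_zero 0)
    rw [ZMod.val_zero, rn_zero] at ha1
    rw [ZMod.val_zero, ← cn_zero hT (hz a2) (hn ▸ hg) (ht a2), cn_len] at ha2
    obtain ⟨φ1, hφ1, hφ1'⟩ := hrot (a1⁻¹ * a)
    obtain ⟨φ2, hφ2, hφ2'⟩ := hrot (a2⁻¹ * a)
    have h3 := yv_map φ1 T (z a1) W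
    have h4 := xv_map φ2 T (z a2) W
    rw [hφ1, hφ1', mul_inv_cancel_left] at h3
    rw [hφ2, hφ2', mul_inv_cancel_left] at h4
    refine dot_ne_zero (yv_eig hT (hz a) (ht a)) (xv_eig hT (hz a) (ht a)) ?_ ?_ ?_
    · rw [ht a]
      intro h
      exact hκ (by linear_combination h)
    · intro h
      apply ha1
      funext b
      have := congrFun (h3.trans h) b
      simpa using this
    · intro h
      apply ha2
      funext b
      have := congrFun (h4.trans h) b
      simpa using this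
  have hdu := hd Wu hu hnu htu
  have hdw := hd Ww hw hnw htw
  have hr : ∀ (W : List (Lt r)) a b c, (∃ N, phi T (z a) (z b) W N ≠ 0) →
      ∃ N, phi T (z (a * c)) (z (b * c)) W N ≠ 0 := by
    rintro W a b c ⟨N, hN⟩
    obtain ⟨φ, h1, h2⟩ := hrot c
    refine ⟨fun i => φ.mapMatrix (N i), ?_⟩
    rw [← h2, ← h2]
    nth_rewrite 1 [← h1]
    rw [← phi_map]
    exact (map_ne_zero φ).2 hN
  have hga : ∀ (W : List (Lt r)) x, ∀ k : ℤ, IsCoprime k (orderOf x : ℤ) →
      (∃ N, phi T (z 1) (z x) W N ≠ 0) → ∃ N, phi T (z 1) (z (x ^ k)) W N ≠ 0 := by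
    rintro W x k hk ⟨N, hN⟩
    obtain ⟨φ, h1, h2, h3⟩ := hgal x k hk
    refine ⟨fun i => φ.mapMatrix (N i), ?_⟩
    rw [← h3]
    nth_rewrite 1 [← h1, ← h2]
    rw [← phi_map]
    exact (map_ne_zero φ).2 hN
  obtain ⟨h, hh⟩ := edge_potential (fun a b N => phi T (z a) (z b) Wu N)
    (fun a b N => phi T (z a) (z b) Ww N) (fun L hL v N =>
      cycle_identity Wu Ww (hD L hL) (fun i => rho (z (v i))) (fun i l => rho_mul_iv (hz _) l)
        T (T⁻¹ - T) hκ (fun i => yv T (z (v i)) Wu) (fun i => xv T (z (v i)) Wu)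
        (fun i => yv T (z (v i)) Ww) (fun i => xv T (z (v i)) Ww)
        (fun i => by rw [htu]; ring) (fun i => by rw [htw]; ring)
        (fun i => yv_eig hT (hz _) (htu _)) (fun i => xv_eig hT (hz _) (htu _))
        (fun i => yv_eig hT (hz _) (htw _)) (fun i => xv_eig hT (hz _) (htw _))
        (fun i => hdu _) (fun i => hdw _) (finRotate L) N)
    (hr Wu) (hr Ww) (hga Wu) (hga Ww)
  have hRrec : ∀ (W : List (Lt r)) (hn : W.length = n),
      (∀ a, (wp (rho (z a)) W).trace = T + T⁻¹) → ∀ (j : ZMod n) a,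
      Rn T g (z a) W (j + 1).val = Rn T g (z a) W j.val ᵥ* (g⁻¹ • rho (z a) (lt W hn j)) := by
    intro W hn ht j a
    subst hn
    rw [per_val (Rn T g (z a) W) (rn_len hT (hz a) hg (ht a)) j, rn_succ j.val (ZMod.val_lt j)]
    rfl
  refine propagate (lt Wu hnu) (lt Ww hnw) (lt_succ_ne hu hnu) (lt_succ_ne hw hnw)
    (fun a l => g⁻¹ • rho (z a) l) (g⁻¹ ^ 2) (pow_ne_zero _ (inv_ne_zero hg0)) ?_ ?_
    (fun j a => Rn T g (z a) Wu j.val) (fun j a => Rn T g (z a) Ww j.val)
    (fun j a => Cn T g (z a) Wu j.val) (fun j a => Cn T g (z a) Ww j.val)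
    (hRrec Wu hnu htu) (hRrec Ww hnw htw) (hi Wu hu hnu).1 (hi Ww hw hnw).2
    ((hi Ww hw hnw).1.ne_zero 0)
    (fun a => h a * (yv T (z a) Wu ⬝ᵥ xv T (z a) Wu) / (yv T (z a) Ww ⬝ᵥ xv T (z a) Ww))
    (fun a => (h a : K)⁻¹)
    (fun a => div_ne_zero (mul_ne_zero (h a).ne_zero (hdu a)) (hdw a))
    (fun a => inv_ne_zero (h a).ne_zero) ?_
  · rw [← pow_mul, mul_comm, pow_mul, inv_pow, hg, inv_pow]
    exact fun h => hT2 (inv_eq_one.1 h)
  · intro a l
    rw [smul_mul_smul_comm, rho_mul_iv (hz a), pow_two]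
  · intro τ a a' b b'
    have h1 := hh a a' (Pi.single τ (Matrix.single b b' 1))
    simp only [phi] at h1
    rw [closed_form hnu z hT hz hg htu, closed_form hnw z hT hz hg htw] at h1
    have h2 := hdu a
    have h3 := hdw a
    have h4 := (h a').ne_zero
    field_simp at h1 ⊢
    linear_combination h1

lemma trace_eq_of_deq {K : Type} [Field K] {Wu Ww : List (Lt r)}
    (h : DEq (Fin 2) K (FreeGroup.mk Wu) (FreeGroup.mk Ww)) {z : K} (hz : z ≠ 0) :
    (wp (rho z) Wu).trace = (wp (rho z) Ww).trace := by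
  obtain ⟨f, hf⟩ := exists_hom (rho (r := r) z) (rho_mul_iv hz)
  have h0 := h f 0
  have h1 := h f 1
  rw [hf, hf] at h0 h1
  simp only [det_fin_two, trace_fin_two, zero_smul, sub_zero, one_smul, Matrix.sub_apply,
    Matrix.one_apply_eq, ne_eq, zero_ne_one, not_false_eq_true, Matrix.one_apply_ne,
    one_ne_zero] at h0 h1 ⊢
  linear_combination h0 - h1

lemma isConj_rotate (W : List (Lt r)) (k : ℕ) (hk : k ≤ W.length) :
    IsConj (FreeGroup.mk W) (FreeGroup.mk (W.rotate k)) := by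
  rw [List.rotate_eq_drop_append_take hk, isConj_iff]
  refine ⟨(FreeGroup.mk (W.take k))⁻¹, ?_⟩
  nth_rewrite 2 [← List.take_append_drop k W]
  rw [← FreeGroup.mul_mk, ← FreeGroup.mul_mk]
  group

lemma exists_cyc (u : FreeGroup (Fin r)) :
    ∃ W, FreeGroup.IsCyclicallyReduced W ∧ IsConj (FreeGroup.mk W) u := by
  refine ⟨FreeGroup.reduceCyclically u.toWord,
    FreeGroup.reduceCyclically.isCyclicallyReduced FreeGroup.isReduced_toWord, ?_⟩
  rw [isConj_iff]
  refine ⟨FreeGroup.mk (FreeGroup.reduceCyclically.conjugator u.toWord), ?_⟩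
  rw [FreeGroup.inv_mk, FreeGroup.mul_mk, FreeGroup.mul_mk,
    FreeGroup.reduceCyclically.conj_conjugator_reduceCyclically, FreeGroup.mk_toWord]

theorem conj_of_deq (Wu Ww : List (Lt r)) (hu : FreeGroup.IsCyclicallyReduced Wu)
    (hw : FreeGroup.IsCyclicallyReduced Ww)
    (h2 : DEq (Fin 2) KK (FreeGroup.mk Wu) (FreeGroup.mk Ww))
    (hD : ∀ L ≤ 6, DEq (Fin 2 × Fin L) (PowerSeries KK) (FreeGroup.mk Wu) (FreeGroup.mk Ww)) :
    IsConj (FreeGroup.mk Wu) (FreeGroup.mk Ww) := by
  have hl := length_eq Wu Ww hu hw fun z hz => trace_eq_of_deq h2 hz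
  rcases Nat.eq_zero_or_pos Wu.length with h0 | h0
  · rw [List.length_eq_zero_iff.1 h0, List.length_eq_zero_iff.1 (hl.symm.trans h0)]
  have : NeZero Wu.length := ⟨h0.ne'⟩
  obtain ⟨T, g, z, hT, hT2, hg, hz, htu, hrot, hgal, hi⟩ := exists_points Wu hu rfl
  obtain ⟨j, hj⟩ := rotation_of_points Wu Ww hu hw rfl hl.symm hD T g z hT hT2 hg hz htu
    (fun a => (trace_eq_of_deq h2 (hz a)).symm.trans (htu a)) hrot hgal hi
  have h3 : Ww = Wu.rotate j.val := by
    refine List.ext_getElem (by simp [hl]) fun i h1 h2 => ?_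
    have h4 := hj (i : ZMod Wu.length)
    have h5 : (i : ZMod Wu.length).val = i := ZMod.val_cast_of_lt (hl ▸ h1)
    have h6 : (j + (i : ZMod Wu.length)).val = (i + j.val) % Wu.length := by
      rw [ZMod.val_add, h5, add_comm]
    unfold lt at h4
    simp only [h5, h6] at h4
    rw [List.getElem_rotate, h4]
  rw [h3]
  exact isConj_rotate Wu _ (ZMod.val_lt j).le

theorem property_A {n : ℕ} (hn : 924 ≤ n) (u w : FreeGroup (Fin r))
    (h : ∀ A : Fin r → SpecialLinearGroup (Fin n) ℂ,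
      ((FreeGroup.lift A u : SpecialLinearGroup (Fin n) ℂ) : Matrix (Fin n) (Fin n) ℂ).trace =
      ((FreeGroup.lift A w : SpecialLinearGroup (Fin n) ℂ) : Matrix (Fin n) (Fin n) ℂ).trace) :
    IsConj u w := by
  obtain ⟨Wu, hu, hu'⟩ := exists_cyc u
  obtain ⟨Ww, hw, hw'⟩ := exists_cyc w
  have key : ∀ (A : Fin r → SpecialLinearGroup (Fin n) ℂ) (a b : FreeGroup (Fin r)), IsConj a b →
      ((FreeGroup.lift A a : SpecialLinearGroup (Fin n) ℂ) : Matrix (Fin n) (Fin n) ℂ).trace =
      ((FreeGroup.lift A b : SpecialLinearGroup (Fin n) ℂ) : Matrix (Fin n) (Fin n) ℂ).trace := by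
    intro A a b hab
    obtain ⟨c, rfl⟩ := isConj_iff.1 hab
    have h1 : ∀ f : FreeGroup (Fin r) →* Matrix (Fin n) (Fin n) ℂ,
        (f a).trace = (f (c * a * c⁻¹)).trace := by
      intro f
      rw [map_mul, map_mul, Matrix.trace_mul_cycle, ← map_mul, inv_mul_cancel, map_one, one_mul]
    exact h1 (SpecialLinearGroup.coeMonoidHom.comp (FreeGroup.lift A))
  have h' := fun A => (key A _ _ hu').trans ((h A).trans (key A _ _ hw').symm)
  refine hu'.symm.trans ((conj_of_deq Wu Ww hu hw (deq_of_sl hn h' _ (by simp) _)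
    fun L hL => deq_of_sl hn h' _ (by simp; omega) _).trans hw')

end Pool.Agent.Work.MP_c2f093_al.PA
end
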